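import Pool.Agent.Sully15.Prob2

/-!
MP_109285_co: every orientation of `G(n,p)`, range `p^21 (1-p)^3 n ≥ 2^232`.
-/

namespace Pool.Agent.Sully15

open Finset Pool.Agent.GRig

/-- every orientation of `G` has a vertex `v` with `|N2+(v)| ≥ |N-(v)| + s` -/
def GoodS (n : ℕ) (s : ℝ) (G : SimpleGraph (Fin n)) : Prop :=
  ∀ adj : Fin n → Fin n → Prop, (∀ x y, adj x y → ¬ adj y x) →
    (∀ x y, (adj x y ∨ adj y x) ↔ G.Adj x y) →
    ∃ v : Fin n,
      ({u : Fin n | adj u v}.ncard : ℝ) + s ≤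
        ({w : Fin n | w ≠ v ∧ ¬ adj v w ∧ ∃ u : Fin n, adj v u ∧ adj u w}.ncard : ℝ)

open Classical in
/-- comparison of the second out-neighbourhood with the in-neighbourhood -/
theorem n2_eq {V : Type} [Fintype V] (adj : V → V → Prop) (hor : ∀ x y, adj x y → ¬ adj y x)
    (v : V) :
    ({u : V | adj u v}.ncard : ℝ) + (mS (Hn adj) v univ : ℝ) =
      ({w : V | w ≠ v ∧ ¬ adj v w ∧ ∃ u : V, adj v u ∧ adj u w}.ncard : ℝ) +
        ((Zn adj v).card : ℝ) := by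
  set I : Finset V := univ.filter (fun u => adj u v) with hI
  set N2 : Finset V :=
    univ.filter (fun w => w ≠ v ∧ ¬ adj v w ∧ ∃ u : V, adj v u ∧ adj u w) with hN2
  have hIset : {u : V | adj u v} = ↑I := by
    ext u
    rw [hI]
    simp
  have hN2set : {w : V | w ≠ v ∧ ¬ adj v w ∧ ∃ u : V, adj v u ∧ adj u w} = ↑N2 := by
    ext w
    rw [hN2]
    simp
  rw [hIset, hN2set, Set.ncard_coe_finset, Set.ncard_coe_finset]
  have h1 : I.card + mS (Hn adj) v univ = N2.card + (Zn adj v).card := by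
    unfold mS
    have e1 : Disjoint I (univ.filter (fun u => Hn adj v u)) := by
      rw [disjoint_left]
      intro u hu hu2
      rw [hI, mem_filter] at hu
      rw [mem_filter] at hu2
      exact hu2.2.2.2 hu.2
    have e2 : Disjoint N2 (Zn adj v) := by
      rw [disjoint_left]
      intro u hu hu2
      rw [hN2, mem_filter] at hu
      rw [mem_Zn] at hu2
      obtain ⟨x, hx1, hx2⟩ := hu.2.2.2
      exact hu2.2.2 x hx1 hx2
    rw [← card_union_of_disjoint e1, ← card_union_of_disjoint e2]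
    congr 1
    ext u
    rw [mem_union, mem_union, hI, hN2, mem_filter, mem_filter, mem_filter, mem_Zn]
    unfold Hn
    simp only [mem_univ, true_and]
    constructor
    · intro h
      have hne : u ≠ v := by
        rintro rfl
        rcases h with h | h
        · exact hor _ _ h h
        · exact h.1 rfl
      have hnadj : ¬ adj v u := by
        rcases h with h | h
        · exact hor _ _ h
        · exact h.2.1
      by_cases hx : ∃ x, adj v x ∧ adj x u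
      · exact Or.inl ⟨hne, hnadj, hx⟩
      · right
        refine ⟨hne, hnadj, ?_⟩
        intro x hx1 hx2
        exact hx ⟨x, hx1, hx2⟩
    · intro h
      have hne : u ≠ v := by
        rcases h with h | h
        · exact h.1
        · exact h.1
      have hnadj : ¬ adj v u := by
        rcases h with h | h
        · exact h.2.1
        · exact h.2.1
      by_cases hx : adj u v
      · exact Or.inl hx
      · exact Or.inr ⟨hne, hnadj, hx⟩
  exact_mod_cast h1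

theorem good2_of {n : ℕ} (hn : 0 < n) {p : ℝ} (hp0 : 0 < p) (hp1 : p < 1) (h : ℕ)
    (hh : 0 < h) (k : ℕ)
    (hh2 : 2 * (h : ℝ) ≤ p ^ 2 / 2 ^ 22 * ((1 - p) * n))
    (hk : 8 * (k : ℝ) ≤ p ^ 7 / 2 ^ 74 * ((1 - p) ^ 2 * n))
    (G : SimpleGraph (Fin n)) (hPR : PR G.Adj (h : ℝ) (p / 8))
    (hD : DD (Hg G) (1 - p) (p ^ 7 / 2 ^ 74 * ((1 - p) * n)) k)
    (hdeg : ∀ x, 3 / 4 * ((1 - p) * n) ≤ (mS (Hg G) x Finset.univ : ℝ) ∧
          (mS (Hg G) x Finset.univ : ℝ) ≤ 2 * ((1 - p) * n)) :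
    GoodS n (p ^ 2 * (1 - p) * n / 2 ^ 22) G := by
  intro adj hor hG
  have : Nonempty (Fin n) := ⟨⟨0, hn⟩⟩
  have hH : Hn adj = Hg G := Hn_eq hG
  have hc7 : (p / 8) ^ 7 / 2 ^ 53 = p ^ 7 / 2 ^ 74 := by ring
  have hc2 : (p / 8) ^ 2 / 2 ^ 16 = p ^ 2 / 2 ^ 22 := by ring
  obtain ⟨x, hx⟩ := det2 (V := Fin n) (G := G.Adj) (adj := adj) (q := 1 - p) (h := h)
    (c := p / 8) (k := k) (fun x y hxy => (hG x y).2 hxy) hor (by exact_mod_cast hh)
    (by positivity) (by linarith) (by linarith) (by linarith) hPR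
    (by rw [hH, Fintype.card_fin, hc7]; exact hD)
    (by rw [hH, Fintype.card_fin]; exact fun x => (hdeg x).1)
    (by rw [hH, Fintype.card_fin]; exact fun x => (hdeg x).2)
    (by rw [Fintype.card_fin, hc2]; exact hh2)
    (by rw [Fintype.card_fin, hc7]; exact hk)
  refine ⟨x, ?_⟩
  have h1 := n2_eq adj hor x
  rw [Fintype.card_fin, hc2] at hx
  have h2 : p ^ 2 / 2 ^ 22 * ((1 - p) * n) = p ^ 2 * (1 - p) * n / 2 ^ 22 := by ring
  rw [h2] at hx
  linarith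

theorem combine2 {n : ℕ} (hn : 0 < n) {p : ℝ} (hp0 : 0 < p) (hp1 : p < 1) (h : ℕ)
    (hh : 0 < h) (k : ℕ)
    (hh2 : 2 * (h : ℝ) ≤ p ^ 2 / 2 ^ 22 * ((1 - p) * n))
    (hk : 8 * (k : ℝ) ≤ p ^ 7 / 2 ^ 74 * ((1 - p) ^ 2 * n)) :
    1 - (4 ^ n * Real.exp (-(p / 8 * (h : ℝ) ^ 2)) +
      2 * (4 ^ n * Real.exp (-((p ^ 7 / 2 ^ 74) ^ 2 * k * ((1 - p) * n) / 16))) +
      n * (2 * Real.exp (1 - (1 - p) * n / 64))) ≤
      prob n p (GoodS n (p ^ 2 * (1 - p) * n / 2 ^ 22)) := by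
  rw [prob_eq]
  have hq : 0 < 1 - p := by linarith
  have hn0 : (0 : ℝ) < n := by exact_mod_cast hn
  have hη0 : 0 < p ^ 7 / 2 ^ 74 := by positivity
  have hη1 : p ^ 7 / 2 ^ 74 ≤ 1 := by
    have : p ^ 7 ≤ 1 := pow_le_one₀ hp0.le hp1.le
    rw [div_le_one (by positivity)]
    exact this.trans (by norm_num)
  have hk2 : 2 * (k : ℝ) ≤ p ^ 7 / 2 ^ 74 * ((1 - p) * n) := by
    have e1 : p ^ 7 / 2 ^ 74 * ((1 - p) ^ 2 * n) ≤ p ^ 7 / 2 ^ 74 * ((1 - p) * n) := by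
      apply mul_le_mul_of_nonneg_left _ hη0.le
      apply mul_le_mul_of_nonneg_right _ hn0.le
      nlinarith
    have e2 : 0 ≤ (k : ℝ) := by positivity
    linarith
  have e1 : pr p (fun ω : Sym2 (Fin n) → Bool =>
      ¬ GoodS n (p ^ 2 * (1 - p) * n / 2 ^ 22) (gr ω)) ≤
      pr p (fun ω : Sym2 (Fin n) → Bool => ((¬ PR (gr ω).Adj (h : ℝ) (p / 8)) ∨
        (¬ DD (Hg (gr ω)) (1 - p) (p ^ 7 / 2 ^ 74 * ((1 - p) * n)) k)) ∨
        ¬ ∀ x, 3 / 4 * ((1 - p) * n) ≤ (mS (Hg (gr ω)) x Finset.univ : ℝ) ∧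
          (mS (Hg (gr ω)) x Finset.univ : ℝ) ≤ 2 * ((1 - p) * n)) := by
    refine pr_mono hp0.le hp1.le fun ω hω => ?_
    by_contra hcon
    rw [not_or, not_or, not_not, not_not, not_not] at hcon
    exact hω (good2_of hn hp0 hp1 h hh k hh2 hk (gr ω) hcon.1.1 hcon.1.2 hcon.2)
  have e2 := pr_or_le hp0.le hp1.le
    (fun ω : Sym2 (Fin n) → Bool => (¬ PR (gr ω).Adj (h : ℝ) (p / 8)) ∨
        (¬ DD (Hg (gr ω)) (1 - p) (p ^ 7 / 2 ^ 74 * ((1 - p) * n)) k))
    (fun ω : Sym2 (Fin n) → Bool =>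
        ¬ ∀ x, 3 / 4 * ((1 - p) * n) ≤ (mS (Hg (gr ω)) x Finset.univ : ℝ) ∧
          (mS (Hg (gr ω)) x Finset.univ : ℝ) ≤ 2 * ((1 - p) * n))
  have e3 := pr_or_le hp0.le hp1.le
    (fun ω : Sym2 (Fin n) → Bool => ¬ PR (gr ω).Adj (h : ℝ) (p / 8))
    (fun ω : Sym2 (Fin n) → Bool =>
      ¬ DD (Hg (gr ω)) (1 - p) (p ^ 7 / 2 ^ 74 * ((1 - p) * n)) k)
  have e4 := pr_notPR (n := n) hp0.le hp1.le h
  have e5 := pr_notDD (n := n) hp0.le hp1.le hη0 hη1 k hk2
  have e6 := pr_degs (n := n) hp0.le hp1.le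
  have e7 := pr_not p (fun ω : Sym2 (Fin n) → Bool =>
    GoodS n (p ^ 2 * (1 - p) * n / 2 ^ 22) (gr ω))
  linarith

theorem main2 (n : ℕ) (p : ℝ) (hp0 : 0 < p) (hp1 : p < 1)
    (hyp : 2 ^ 232 ≤ p ^ 21 * (1 - p) ^ 3 * n) :
    1 - Real.exp (-Real.sqrt n) ≤ prob n p (GoodS n (p ^ 2 * (1 - p) * n / 2 ^ 22)) := by
  set q : ℝ := 1 - p with hqdef
  have hq0 : 0 < q := by linarith
  have hq1 : q ≤ 1 := by linarith
  have hn0' : (0 : ℝ) ≤ n := by positivity
  have hn0 : (0 : ℝ) < n := by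
    rcases hn0'.lt_or_eq with h | h
    · exact h
    · exfalso
      rw [← h] at hyp
      norm_num at hyp
  have hn : 0 < n := by exact_mod_cast hn0
  have hn1 : (1 : ℝ) ≤ n := by exact_mod_cast hn
  set η : ℝ := p ^ 7 / 2 ^ 74 with hη
  have hη0 : 0 < η := by positivity
  -- consequences of the hypothesis
  have hp21 : p ^ 21 ≤ 1 := pow_le_one₀ hp0.le hp1.le
  have hq3n : 2 ^ 232 ≤ q ^ 3 * n := by
    refine hyp.trans ?_
    have : p ^ 21 * q ^ 3 * n = p ^ 21 * (q ^ 3 * n) := by ring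
    rw [this]
    have h2 : 0 ≤ q ^ 3 * n := by positivity
    nlinarith
  have hηqn : 2 ^ 10 ≤ η ^ 3 * q ^ 3 * n := by
    have e1 : η ^ 3 * q ^ 3 * n = (p ^ 21 * q ^ 3 * n) / 2 ^ 222 := by
      rw [hη]
      ring
    rw [e1, le_div_iff₀ (by positivity)]
    calc (2 : ℝ) ^ 10 * 2 ^ 222 = 2 ^ 232 := by norm_num
      _ ≤ _ := hyp
  have hp5 : 2 ^ 53 ≤ p ^ 5 * q ^ 2 * n := by
    have e1 : p ^ 21 * q ^ 3 * n ≤ p ^ 5 * q ^ 2 * n := by
      apply mul_le_mul_of_nonneg_right _ hn0.le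
      apply mul_le_mul (pow_le_pow_of_le_one hp0.le hp1.le (by norm_num))
        (pow_le_pow_of_le_one hq0.le hq1 (by norm_num)) (by positivity) (by positivity)
    have e2 : (2 : ℝ) ^ 53 ≤ 2 ^ 232 := pow_le_pow_right₀ (by norm_num) (by norm_num)
    linarith
  have hp2 : 2 ^ 232 ≤ p ^ 2 * q * n := by
    refine hyp.trans ?_
    apply mul_le_mul_of_nonneg_right _ hn0.le
    apply mul_le_mul (pow_le_pow_of_le_one hp0.le hp1.le (by norm_num)) _
      (by positivity) (by positivity)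
    calc q ^ 3 ≤ q ^ 1 := pow_le_pow_of_le_one hq0.le hq1 (by norm_num)
      _ = q := pow_one q
  -- choice of `h` and `k`
  set h : ℕ := ⌊p ^ 2 * q * n / 2 ^ 23⌋₊ with hh
  have hhup : (h : ℝ) ≤ p ^ 2 * q * n / 2 ^ 23 := Nat.floor_le (by positivity)
  have hhlow : p ^ 2 * q * n / 2 ^ 24 ≤ h := by
    have e1 : p ^ 2 * q * n / 2 ^ 23 < h + 1 := Nat.lt_floor_add_one _
    have e2 : (1 : ℝ) ≤ p ^ 2 * q * n / 2 ^ 24 := by
      rw [le_div_iff₀ (by positivity)]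
      have : (1 : ℝ) * 2 ^ 24 ≤ 2 ^ 232 := by norm_num
      linarith
    have e3 : p ^ 2 * q * n / 2 ^ 23 = p ^ 2 * q * n / 2 ^ 24 + p ^ 2 * q * n / 2 ^ 24 := by ring
    linarith
  have hhpos : 0 < h := by
    have : (0 : ℝ) < h := lt_of_lt_of_le (by positivity) hhlow
    exact_mod_cast this
  set k : ℕ := ⌈64 / (η ^ 2 * q)⌉₊ with hk
  have hklow : 64 / (η ^ 2 * q) ≤ k := Nat.le_ceil _
  have hη1 : η ≤ 1 := by
    rw [hη, div_le_one (by positivity)]
    have : p ^ 7 ≤ 1 := pow_le_one₀ hp0.le hp1.le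
    exact this.trans (by norm_num)
  have hkup : (k : ℝ) ≤ 65 / (η ^ 2 * q) := by
    have e1 : (k : ℝ) ≤ 64 / (η ^ 2 * q) + 1 :=
      (Nat.ceil_lt_add_one (by positivity : 0 ≤ 64 / (η ^ 2 * q))).le
    have e2 : (1 : ℝ) ≤ 1 / (η ^ 2 * q) := by
      rw [le_div_iff₀ (by positivity)]
      have : η ^ 2 ≤ 1 := pow_le_one₀ hη0.le hη1
      have h2 : 0 < η ^ 2 := by positivity
      nlinarith
    have e3 : (65 : ℝ) / (η ^ 2 * q) = 64 / (η ^ 2 * q) + 1 / (η ^ 2 * q) := by ring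
    linarith
  have hh2 : 2 * (h : ℝ) ≤ p ^ 2 / 2 ^ 22 * (q * n) := by
    have : p ^ 2 / 2 ^ 22 * (q * n) = 2 * (p ^ 2 * q * n / 2 ^ 23) := by ring
    rw [this]
    linarith
  have hk2 : 8 * (k : ℝ) ≤ η * (q ^ 2 * n) := by
    have e1 : 8 * (k : ℝ) ≤ 8 * (65 / (η ^ 2 * q)) := by linarith
    refine e1.trans ?_
    have e2 : 8 * (65 / (η ^ 2 * q)) = 520 / (η ^ 2 * q) := by ring
    rw [e2, div_le_iff₀ (by positivity)]
    have e3 : η * (q ^ 2 * n) * (η ^ 2 * q) = η ^ 3 * q ^ 3 * n := by ring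
    rw [e3]
    have : (520 : ℝ) ≤ 2 ^ 10 := by norm_num
    linarith
  refine le_trans ?_ (combine2 hn hp0 hp1 h hhpos k hh2 hk2)
  -- the probabilities
  set s := Real.sqrt n with hs
  have hs1 : 1 ≤ s := by
    rw [hs]
    exact Real.one_le_sqrt.2 hn1
  have hss : s * s = n := Real.mul_self_sqrt hn0.le
  have hn4 : (64 : ℝ) ≤ n := by
    have e1 : q ^ 3 * n ≤ 1 * n := mul_le_mul_of_nonneg_right (pow_le_one₀ hq0.le hq1) hn0.le
    have e2 : (64 : ℝ) ≤ 2 ^ 232 := by norm_num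
    linarith
  have hs8 : 8 ≤ s := by
    rw [hs]
    exact Real.le_sqrt_of_sq_le (by linarith)
  have hqn : 256 * s ≤ q * n := by
    by_contra hcon
    rw [not_le] at hcon
    have e1 : (q * n) ^ 3 < (256 * s) ^ 3 := pow_lt_pow_left₀ hcon (by positivity) (by norm_num)
    have e2 : (q * n) ^ 3 = (q ^ 3 * n) * (s ^ 4) := by
      have : s ^ 4 = (s * s) * (s * s) := by ring
      rw [this, hss]
      ring
    have e3 : (2 : ℝ) ^ 232 * s ^ 4 ≤ (q ^ 3 * n) * s ^ 4 :=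
      mul_le_mul_of_nonneg_right hq3n (by positivity)
    have e4 : (256 * s) ^ 3 = 2 ^ 24 * s ^ 3 := by ring
    have e5 : s ^ 3 ≤ s ^ 4 := pow_le_pow_right₀ hs1 (by norm_num)
    have e6 : (2 : ℝ) ^ 24 * s ^ 3 ≤ 2 ^ 232 * s ^ 4 := by
      apply mul_le_mul _ e5 (by positivity) (by positivity)
      norm_num
    linarith
  have h4n : (4 : ℝ) ^ n ≤ Real.exp (2 * n) := by
    have g2 : (4 : ℝ) ≤ Real.exp 2 := by
      have e1 := Real.add_one_le_exp (1 : ℝ)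
      have e2 : Real.exp 2 = Real.exp 1 * Real.exp 1 := by rw [← Real.exp_add]; norm_num
      rw [e2]
      nlinarith
    have g3 := pow_le_pow_left₀ (by norm_num) g2 n
    rw [← Real.exp_nat_mul] at g3
    rw [mul_comm]
    exact g3
  have hns : s ≤ n := by
    rw [← hss]
    nlinarith
  have hexp3 : 8 * Real.exp (-3) ≤ 1 := by
    have e1 : Real.exp (-3) * Real.exp 3 = 1 := by rw [← Real.exp_add]; norm_num
    have e2 : (8 : ℝ) ≤ Real.exp 3 := by
      have e3 := Real.add_one_le_exp (1 : ℝ)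
      have e4 : Real.exp 3 = Real.exp 1 * Real.exp 1 * Real.exp 1 := by
        rw [← Real.exp_add, ← Real.exp_add]; norm_num
      have e5 : (4 : ℝ) ≤ Real.exp 1 * Real.exp 1 := by nlinarith
      rw [e4]
      nlinarith
    have e6 := Real.exp_pos (-3)
    nlinarith
  have hbig : ∀ A : ℝ, 4 * (n : ℝ) ≤ A →
      (4 : ℝ) ^ n * Real.exp (-A) ≤ Real.exp (-s) * Real.exp (-3) := by
    intro A hA
    calc (4 : ℝ) ^ n * Real.exp (-A) ≤ Real.exp (2 * n) * Real.exp (-A) :=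
          mul_le_mul_of_nonneg_right h4n (Real.exp_pos _).le
      _ = Real.exp (2 * n - A) := by rw [sub_eq_add_neg, Real.exp_add]
      _ ≤ Real.exp (-s + -3) := by
          apply Real.exp_le_exp.2
          linarith
      _ = Real.exp (-s) * Real.exp (-3) := Real.exp_add _ _
  have f1 : (4 : ℝ) ^ n * Real.exp (-(p / 8 * (h : ℝ) ^ 2)) ≤ Real.exp (-s) * Real.exp (-3) := by
    apply hbig
    have e1 : (p ^ 2 * q * n / 2 ^ 24) ^ 2 ≤ (h : ℝ) ^ 2 :=
      pow_le_pow_left₀ (by positivity) hhlow 2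
    have e2 : p / 8 * (p ^ 2 * q * n / 2 ^ 24) ^ 2 ≤ p / 8 * (h : ℝ) ^ 2 :=
      mul_le_mul_of_nonneg_left e1 (by positivity)
    refine le_trans ?_ e2
    have e3 : p / 8 * (p ^ 2 * q * n / 2 ^ 24) ^ 2 = (p ^ 5 * q ^ 2 * n) * n / 2 ^ 51 := by ring
    rw [e3, le_div_iff₀ (by positivity)]
    have e4 := mul_le_mul_of_nonneg_right hp5 hn0.le
    have e5 : 4 * (n : ℝ) * 2 ^ 51 = 2 ^ 53 * n := by ring
    linarith
  have f2 : (4 : ℝ) ^ n * Real.exp (-(η ^ 2 * k * (q * n) / 16)) ≤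
      Real.exp (-s) * Real.exp (-3) := by
    apply hbig
    have e1 : 64 ≤ k * (η ^ 2 * q) := by
      rw [div_le_iff₀ (by positivity)] at hklow
      exact hklow
    have e2 := mul_le_mul_of_nonneg_right e1 hn0.le
    have e3 : η ^ 2 * k * (q * n) / 16 = k * (η ^ 2 * q) * n / 16 := by ring
    rw [e3]
    linarith
  have f3 : (n : ℝ) * (2 * Real.exp (1 - q * n / 64)) ≤ Real.exp (-s) * (2 * Real.exp (-3)) := by
    have e1 : Real.exp (1 - q * n / 64) ≤ Real.exp (1 - 4 * s) := by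
      apply Real.exp_le_exp.2
      linarith
    have e2 : (n : ℝ) ≤ Real.exp (2 * s) := by
      have g1 := Real.add_one_le_exp s
      have g2 : Real.exp (2 * s) = Real.exp s * Real.exp s := by
        rw [← Real.exp_add]; ring_nf
      rw [g2, ← hss]
      apply mul_le_mul _ _ (by linarith) (Real.exp_pos _).le
      · linarith
      · linarith
    calc (n : ℝ) * (2 * Real.exp (1 - q * n / 64)) ≤ Real.exp (2 * s) * (2 * Real.exp (1 - 4 * s)) :=
          mul_le_mul e2 (by linarith) (by positivity) (Real.exp_pos _).le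
      _ = 2 * Real.exp (2 * s + (1 - 4 * s)) := by rw [Real.exp_add]; ring
      _ ≤ 2 * Real.exp (-s + -3) := by
          have : Real.exp (2 * s + (1 - 4 * s)) ≤ Real.exp (-s + -3) := by
            apply Real.exp_le_exp.2
            linarith
          linarith
      _ = Real.exp (-s) * (2 * Real.exp (-3)) := by rw [Real.exp_add]; ring
  have hes := Real.exp_pos (-s)
  have f4 : Real.exp (-s) * (5 * Real.exp (-3)) ≤ Real.exp (-s) := by
    have : 5 * Real.exp (-3) ≤ 1 := by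
      have := Real.exp_pos (-3)
      linarith
    nlinarith
  have f5 : (4 : ℝ) ^ n * Real.exp (-(p / 8 * (h : ℝ) ^ 2)) +
      2 * (4 ^ n * Real.exp (-(η ^ 2 * k * (q * n) / 16))) +
      n * (2 * Real.exp (1 - q * n / 64)) ≤ Real.exp (-s) := by
    have e1 : Real.exp (-s) * Real.exp (-3) + 2 * (Real.exp (-s) * Real.exp (-3)) +
        Real.exp (-s) * (2 * Real.exp (-3)) = Real.exp (-s) * (5 * Real.exp (-3)) := by ring
    linarith
  rw [← hη, ← hqdef]
  linarith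

end Pool.Agent.Sully15
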