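import Mathlib

/-!
MP_109285_co, deterministic part: in every orientation of a graph with a one-sided expansion
property some vertex reaches all but few vertices by directed paths of length exactly two.
-/

namespace Pool.Agent.Sully15

open Finset

variable {V : Type*} [Fintype V]

open Classical in
/-- out-neighbours -/
noncomputable def Np (adj : V → V → Prop) (v : V) : Finset V := univ.filter (fun x => adj v x)

open Classical in
/-- in-neighbours -/
noncomputable def Nm (adj : V → V → Prop) (v : V) : Finset V := univ.filter (fun x => adj x v)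

open Classical in
/-- neighbours in the graph -/
noncomputable def Nb (G : V → V → Prop) (v : V) : Finset V := univ.filter (fun x => G v x)

open Classical in
/-- the vertices `z` with at most `k` paths `v → x → z` -/
noncomputable def T (adj : V → V → Prop) (k : ℝ) (v : V) : Finset V :=
  univ.filter (fun z => ((Np adj v ∩ Nm adj z).card : ℝ) ≤ k)

open Classical in
/-- the expansion property -/
def PR (G : V → V → Prop) (h c : ℝ) : Prop :=
  ∀ X Y : Finset V, 2 * h ≤ (X.card : ℝ) → h ≤ (Y.card : ℝ) →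
    ∃ y ∈ Y, c * (X.card : ℝ) ≤ ((Nb G y ∩ X).card : ℝ)

/-- the sequence `κ_i` -/
noncomputable def kap (h c : ℝ) : ℕ → ℝ
  | 0 => 0
  | (i + 1) => max (2 * h) (2 * kap h c i / c)

theorem kap_nonneg {h c : ℝ} (hh : 0 < h) (i : ℕ) : 0 ≤ kap h c i := by
  cases i with
  | zero => exact le_rfl
  | succ i => exact le_trans (by linarith) (le_max_left _ _)

theorem kap_le {h c : ℝ} (hh : 0 < h) (hc : 0 < c) (hc1 : c ≤ 1) (i : ℕ) :
    kap h c i ≤ 2 * h * (2 / c) ^ i := by
  have h2c : 1 ≤ 2 / c := by rw [le_div_iff₀ hc]; linarith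
  induction i with
  | zero => simp only [kap, pow_zero, mul_one]; linarith
  | succ i ih =>
    simp only [kap]
    apply max_le
    · have := one_le_pow₀ h2c (n := i + 1)
      nlinarith
    · rw [pow_succ]
      have : 2 * kap h c i / c = kap h c i * (2 / c) := by ring
      rw [this, ← mul_assoc]
      exact mul_le_mul_of_nonneg_right ih (by positivity)

open Classical in
theorem T_mono (adj : V → V → Prop) {k k' : ℝ} (hk : k ≤ k') (v : V) : T adj k v ⊆ T adj k' v := by
  intro z hz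
  unfold T at *
  rw [mem_filter] at *
  exact ⟨hz.1, hz.2.trans hk⟩

theorem kap_mono {h c : ℝ} (hh : 0 < h) (hc : 0 < c) (hc1 : c ≤ 1) (i : ℕ) :
    kap h c i ≤ kap h c (i + 1) := by
  simp only [kap]
  refine le_trans ?_ (le_max_right _ _)
  have := kap_nonneg (h := h) (c := c) hh i
  rw [le_div_iff₀ hc]
  nlinarith

open Classical in
theorem comp {G adj : V → V → Prop} (hG : ∀ x y, G x y → adj x y ∨ adj y x) {h c : ℝ}
    (hc : 0 < c) (hPR : PR G h c) {k : ℝ} (v z : V)
    (hY : h ≤ ((univ.filter (fun w => w ∈ T adj k v ∧ z ∈ T adj k w)).card : ℝ)) :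
    z ∈ T adj (max (2 * h) (2 * k / c)) v := by
  unfold T
  rw [mem_filter]
  refine ⟨mem_univ _, ?_⟩
  set X := Np adj v ∩ Nm adj z with hX
  by_contra hcon
  rw [not_le] at hcon
  have h1 : 2 * h < (X.card : ℝ) := lt_of_le_of_lt (le_max_left _ _) hcon
  have h2 : 2 * k / c < (X.card : ℝ) := lt_of_le_of_lt (le_max_right _ _) hcon
  obtain ⟨y, hy, hyX⟩ := hPR X _ h1.le hY
  rw [mem_filter] at hy
  obtain ⟨-, hy1, hy2⟩ := hy
  unfold T at hy1 hy2
  rw [mem_filter] at hy1 hy2
  have h3 : Nb G y ∩ X ⊆ (Np adj v ∩ Nm adj y) ∪ (Np adj y ∩ Nm adj z) := by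
    intro x hx
    rw [mem_inter] at hx
    obtain ⟨hx1, hx2⟩ := hx
    rw [hX, mem_inter] at hx2
    unfold Nb at hx1
    rw [mem_filter] at hx1
    rw [mem_union, mem_inter, mem_inter]
    rcases hG y x hx1.2 with h | h
    · right
      refine ⟨?_, hx2.2⟩
      unfold Np
      rw [mem_filter]
      exact ⟨mem_univ _, h⟩
    · left
      refine ⟨hx2.1, ?_⟩
      unfold Nm
      rw [mem_filter]
      exact ⟨mem_univ _, h⟩
  have h4 : ((Nb G y ∩ X).card : ℝ) ≤ k + k := by
    have h5 := (card_le_card h3).trans (card_union_le _ _)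
    have h6 : ((Nb G y ∩ X).card : ℝ) ≤ ((Np adj v ∩ Nm adj y).card : ℝ) +
        ((Np adj y ∩ Nm adj z).card : ℝ) := by exact_mod_cast h5
    linarith [hy1.2, hy2.2]
  rw [div_lt_iff₀ hc] at h2
  nlinarith

open Classical in
/-- few vertices have few in-neighbours in a set -/
theorem few_in {G adj : V → V → Prop} (hG : ∀ x y, G x y → adj x y ∨ adj y x) {h c : ℝ}
    (hh : 0 < h) (hc : 0 < c) (hPR : PR G h c) (S : Finset V) {lam : ℝ}
    (hS : ∀ x ∈ S, ((Nm adj x ∩ S).card : ℝ) ≤ lam) :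
    (S.card : ℝ) ≤ max (2 * h) (4 * lam / c) := by
  by_contra hcon
  rw [not_le] at hcon
  have h1 : 2 * h < (S.card : ℝ) := lt_of_le_of_lt (le_max_left _ _) hcon
  have h2 : 4 * lam / c < (S.card : ℝ) := lt_of_le_of_lt (le_max_right _ _) hcon
  set Y := S.filter (fun y => ((Nb G y ∩ S).card : ℝ) < c * (S.card : ℝ)) with hY
  have hYh : (Y.card : ℝ) < h := by
    by_contra hc2
    rw [not_lt] at hc2
    obtain ⟨y, hy, hy2⟩ := hPR S Y h1.le hc2
    rw [hY, mem_filter] at hy
    linarith [hy.2]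
  -- lower bound
  have h3 : ((S.card : ℝ) - Y.card) * (c * S.card) ≤ ∑ y ∈ S, ((Nb G y ∩ S).card : ℝ) := by
    have h4 : ∑ y ∈ S \ Y, (c * (S.card : ℝ)) ≤ ∑ y ∈ S \ Y, ((Nb G y ∩ S).card : ℝ) := by
      refine sum_le_sum fun y hy => ?_
      rw [mem_sdiff, hY, mem_filter] at hy
      by_contra hc3
      rw [not_le] at hc3
      exact hy.2 ⟨hy.1, hc3⟩
    have h5 : ∑ y ∈ S \ Y, ((Nb G y ∩ S).card : ℝ) ≤ ∑ y ∈ S, ((Nb G y ∩ S).card : ℝ) :=
      sum_le_sum_of_subset_of_nonneg sdiff_subset (fun _ _ _ => by positivity)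
    rw [sum_const, nsmul_eq_mul, cast_card_sdiff (filter_subset _ _)] at h4
    exact h4.trans h5
  -- upper bound
  have h6 : ∑ y ∈ S, ((Nb G y ∩ S).card : ℝ) ≤
      ∑ y ∈ S, ((Np adj y ∩ S).card : ℝ) + ∑ y ∈ S, ((Nm adj y ∩ S).card : ℝ) := by
    rw [← sum_add_distrib]
    refine sum_le_sum fun y _ => ?_
    have h7 : Nb G y ∩ S ⊆ (Np adj y ∩ S) ∪ (Nm adj y ∩ S) := by
      intro x hx
      rw [mem_inter] at hx
      unfold Nb at hx
      rw [mem_filter] at hx
      rw [mem_union, mem_inter, mem_inter]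
      unfold Np Nm
      rw [mem_filter, mem_filter]
      rcases hG y x hx.1.2 with h | h
      · exact Or.inl ⟨⟨mem_univ _, h⟩, hx.2⟩
      · exact Or.inr ⟨⟨mem_univ _, h⟩, hx.2⟩
    exact_mod_cast (card_le_card h7).trans (card_union_le _ _)
  have h8 : ∑ y ∈ S, ((Np adj y ∩ S).card : ℝ) = ∑ y ∈ S, ((Nm adj y ∩ S).card : ℝ) := by
    have e1 : ∀ y, ((Np adj y ∩ S).card : ℝ) = ∑ x ∈ S, if adj y x then (1 : ℝ) else 0 := by
      intro y
      rw [← sum_filter, sum_const, nsmul_eq_mul, mul_one]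
      congr 2
      ext x
      unfold Np
      simp [and_comm]
    have e2 : ∀ y, ((Nm adj y ∩ S).card : ℝ) = ∑ x ∈ S, if adj x y then (1 : ℝ) else 0 := by
      intro y
      rw [← sum_filter, sum_const, nsmul_eq_mul, mul_one]
      congr 2
      ext x
      unfold Nm
      simp [and_comm]
    rw [sum_congr rfl (fun y _ => e1 y), sum_congr rfl (fun y _ => e2 y), sum_comm]
  have h9 : ∑ y ∈ S, ((Nm adj y ∩ S).card : ℝ) ≤ (S.card : ℝ) * lam := by
    have := sum_le_sum hS
    rw [sum_const, nsmul_eq_mul] at this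
    exact this
  rw [div_lt_iff₀ hc] at h2
  have hSpos : (0 : ℝ) < S.card := by linarith
  have h10 : ((S.card : ℝ) / 2) * (c * S.card) ≤ ((S.card : ℝ) - Y.card) * (c * S.card) := by
    apply mul_le_mul_of_nonneg_right _ (by positivity)
    linarith
  have h11 : ((S.card : ℝ) / 2) * (c * S.card) ≤ 2 * ((S.card : ℝ) * lam) := by linarith
  have h12 : (S.card : ℝ) * (c * S.card) ≤ (S.card : ℝ) * (4 * lam) := by nlinarith
  have h13 := le_of_mul_le_mul_left h12 hSpos
  linarith

theorem Nm_rev (adj : V → V → Prop) (x : V) : Nm (fun a b => adj b a) x = Np adj x := rfl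

open Classical in
theorem few_out {G adj : V → V → Prop} (hG : ∀ x y, G x y → adj x y ∨ adj y x) {h c : ℝ}
    (hh : 0 < h) (hc : 0 < c) (hPR : PR G h c) (S : Finset V) {lam : ℝ}
    (hS : ∀ x ∈ S, ((Np adj x ∩ S).card : ℝ) ≤ lam) :
    (S.card : ℝ) ≤ max (2 * h) (4 * lam / c) :=
  few_in (adj := fun a b => adj b a) (fun x y hxy => (hG x y hxy).symm) hh hc hPR S
    (fun x hx => by rw [Nm_rev]; exact hS x hx)

open Classical in
/-- counting paths of length two inside `Q` -/
theorem path_count (adj : V → V → Prop) (Q : Finset V) :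
    ∑ w ∈ Q, ∑ z ∈ Q, ((Np adj w ∩ Nm adj z).card : ℝ) =
      ∑ x, ((Nm adj x ∩ Q).card : ℝ) * ((Np adj x ∩ Q).card : ℝ) := by
  have e1 : ∀ y, ((Np adj y ∩ Q).card : ℝ) = ∑ x ∈ Q, if adj y x then (1 : ℝ) else 0 := by
    intro y
    rw [← sum_filter, sum_const, nsmul_eq_mul, mul_one]
    congr 2
    ext x
    unfold Np
    simp [and_comm]
  have e2 : ∀ y, ((Nm adj y ∩ Q).card : ℝ) = ∑ x ∈ Q, if adj x y then (1 : ℝ) else 0 := by
    intro y
    rw [← sum_filter, sum_const, nsmul_eq_mul, mul_one]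
    congr 2
    ext x
    unfold Nm
    simp [and_comm]
  have e3 : ∀ w z, ((Np adj w ∩ Nm adj z).card : ℝ) =
      ∑ x, (if adj w x then (1 : ℝ) else 0) * (if adj x z then (1 : ℝ) else 0) := by
    intro w z
    have : ∀ x, (if adj w x then (1 : ℝ) else 0) * (if adj x z then (1 : ℝ) else 0) =
        if (adj w x ∧ adj x z) then (1 : ℝ) else 0 := by
      intro x
      by_cases h1 : adj w x <;> by_cases h2 : adj x z <;> simp [h1, h2]
    rw [sum_congr rfl (fun x _ => this x), ← sum_filter, sum_const, nsmul_eq_mul, mul_one]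
    congr 2
    ext x
    unfold Np Nm
    simp
  calc ∑ w ∈ Q, ∑ z ∈ Q, ((Np adj w ∩ Nm adj z).card : ℝ)
      = ∑ w ∈ Q, ∑ z ∈ Q, ∑ x, (if adj w x then (1 : ℝ) else 0) *
          (if adj x z then (1 : ℝ) else 0) :=
        sum_congr rfl (fun w _ => sum_congr rfl (fun z _ => e3 w z))
    _ = ∑ w ∈ Q, ∑ x, ∑ z ∈ Q, (if adj w x then (1 : ℝ) else 0) *
          (if adj x z then (1 : ℝ) else 0) := sum_congr rfl (fun w _ => sum_comm)
    _ = ∑ x, ∑ w ∈ Q, ∑ z ∈ Q, (if adj w x then (1 : ℝ) else 0) *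
          (if adj x z then (1 : ℝ) else 0) := sum_comm
    _ = ∑ x, ((Nm adj x ∩ Q).card : ℝ) * ((Np adj x ∩ Q).card : ℝ) := by
        refine sum_congr rfl (fun x _ => ?_)
        rw [e2 x, e1 x, sum_mul_sum]

open Classical in
/-- pigeonhole: a bounded sequence has a small step -/
theorem pigeon (m : ℕ → ℕ) (n J : ℕ) (hm : ∀ i, m i ≤ n) (g : ℝ) (hJ : 1 ≤ J * g)
    (hn : 0 < m 0) :
    ∃ i < J, (m (i + 1) : ℝ) ≤ m i + g * n := by
  by_contra hcon
  push Not at hcon
  have h1 : ∀ j ≤ J, (m 0 : ℝ) + j * (g * n) ≤ m j := by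
    intro j
    induction j with
    | zero => intro _; simp
    | succ j ih =>
      intro hj
      have h2 := ih (by omega)
      have h3 := hcon j (by omega)
      push_cast
      linarith
  have h4 := h1 J le_rfl
  have h5 : (m J : ℝ) ≤ n := by exact_mod_cast hm J
  have h6 : (n : ℝ) ≤ J * (g * n) := by
    have h7 : (0 : ℝ) ≤ n := by positivity
    nlinarith
  have h7 : (0 : ℝ) < m 0 := by exact_mod_cast hn
  linarith

open Classical in
/-- the main step -/
theorem step {G adj : V → V → Prop} (hG : ∀ x y, G x y → adj x y ∨ adj y x) {h c : ℝ}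
    (hh : 0 < h) (hc : 0 < c) (hPR : PR G h c) {k k' a g : ℝ} (hk : 0 ≤ k)
    (hk' : k' = max (2 * h) (2 * k / c)) (hkk : k ≤ k') (v : V)
    (hv : ∀ w, ((T adj k' v).card : ℝ) ≤ (T adj k w).card + g)
    {lam : ℝ} (hlam : 0 < lam)
    (hg : 0 ≤ g)
    (hE : k * (Fintype.card V : ℝ) ^ 2 + g * (Fintype.card V : ℝ) ^ 2 +
      h * (Fintype.card V : ℝ) ^ 2 ≤ lam ^ 2 * a) :
    ((T adj k v).card : ℝ) ≤ 2 * max (2 * h) (4 * lam / c) + a := by
  set n : ℝ := (Fintype.card V : ℝ) with hn
  have hn0 : 0 ≤ n := by positivity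
  set R := T adj k' v with hR
  set Q := T adj k v with hQ
  have hQR : Q ⊆ R := T_mono adj hkk v
  have hQn : (Q.card : ℝ) ≤ n := by
    rw [hn]
    exact_mod_cast card_le_univ Q
  -- few w for z outside R
  have h1 : ∀ z, z ∉ R → ((Q.filter (fun w => z ∈ T adj k w)).card : ℝ) ≤ h := by
    intro z hz
    by_contra hcon
    rw [not_le] at hcon
    apply hz
    rw [hR, hk']
    apply comp hG hc hPR v z
    refine hcon.le.trans ?_
    have : Q.filter (fun w => z ∈ T adj k w) =
        univ.filter (fun w => w ∈ T adj k v ∧ z ∈ T adj k w) := by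
      ext w
      simp [hQ]
    rw [this]
  -- double count
  have h2 : ∑ w ∈ Q, ((T adj k w \ R).card : ℝ) ≤ n * h := by
    have e1 : ∀ w, ((T adj k w \ R).card : ℝ) =
        ∑ z ∈ Rᶜ, if z ∈ T adj k w then (1 : ℝ) else 0 := by
      intro w
      rw [← sum_filter, sum_const, nsmul_eq_mul, mul_one]
      congr 2
      ext z
      simp [and_comm]
    rw [sum_congr rfl (fun w _ => e1 w), sum_comm]
    have e2 : ∀ z ∈ Rᶜ, ∑ w ∈ Q, (if z ∈ T adj k w then (1 : ℝ) else 0) ≤ h := by
      intro z hz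
      rw [← sum_filter, sum_const, nsmul_eq_mul, mul_one]
      exact h1 z (by simpa using hz)
    refine (sum_le_sum e2).trans ?_
    rw [sum_const, nsmul_eq_mul]
    apply mul_le_mul_of_nonneg_right _ hh.le
    rw [hn]
    exact_mod_cast card_le_univ _
  -- the defect inside Q
  have h3 : ∀ w ∈ Q, ((Q \ T adj k w).card : ℝ) ≤ g + ((T adj k w \ R).card : ℝ) := by
    intro w _
    have e1 : ((Q \ T adj k w).card : ℝ) ≤ ((R \ T adj k w).card : ℝ) := by
      exact_mod_cast card_le_card (sdiff_subset_sdiff hQR le_rfl)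
    have e2 : (R \ T adj k w).card + (T adj k w).card = (T adj k w \ R).card + R.card := by
      rw [card_sdiff_add_card, card_sdiff_add_card, union_comm]
    have e3 : ((R \ T adj k w).card : ℝ) + ((T adj k w).card : ℝ) =
        ((T adj k w \ R).card : ℝ) + R.card := by exact_mod_cast e2
    have e4 := hv w
    linarith
  have h4 : ∑ w ∈ Q, ((Q \ T adj k w).card : ℝ) ≤ n * g + n * h := by
    refine (sum_le_sum h3).trans ?_
    rw [sum_add_distrib, sum_const, nsmul_eq_mul]
    have := mul_le_mul_of_nonneg_right hQn hg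
    linarith
  -- the number of paths
  have h5 : ∑ w ∈ Q, ∑ z ∈ Q, ((Np adj w ∩ Nm adj z).card : ℝ) ≤ lam ^ 2 * a := by
    have e1 : ∀ w ∈ Q, ∑ z ∈ Q, ((Np adj w ∩ Nm adj z).card : ℝ) ≤
        k * n + n * ((Q \ T adj k w).card : ℝ) := by
      intro w _
      have e2 : ∀ z ∈ Q, ((Np adj w ∩ Nm adj z).card : ℝ) ≤
          k + (if z ∈ T adj k w then (0 : ℝ) else 1) * n := by
        intro z _
        by_cases hz : z ∈ T adj k w
        · rw [if_pos hz]
          unfold T at hz
          rw [mem_filter] at hz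
          linarith [hz.2]
        · rw [if_neg hz]
          have : ((Np adj w ∩ Nm adj z).card : ℝ) ≤ n := by
            rw [hn]
            exact_mod_cast card_le_univ _
          linarith
      refine (sum_le_sum e2).trans ?_
      rw [sum_add_distrib, sum_const, nsmul_eq_mul, ← sum_mul]
      have e3 : ∑ z ∈ Q, (if z ∈ T adj k w then (0 : ℝ) else 1) =
          ((Q \ T adj k w).card : ℝ) := by
        have : ∀ z, (if z ∈ T adj k w then (0 : ℝ) else 1) =
            (if ¬ z ∈ T adj k w then (1 : ℝ) else 0) := by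
          intro z
          by_cases hz : z ∈ T adj k w <;> simp [hz]
        rw [sum_congr rfl (fun z _ => this z), ← sum_filter, sum_const, nsmul_eq_mul, mul_one]
        congr 2
        ext z
        simp
      rw [e3]
      have := mul_le_mul_of_nonneg_right hQn hk
      linarith
    refine (sum_le_sum e1).trans ?_
    rw [sum_add_distrib, sum_const, nsmul_eq_mul, ← mul_sum]
    have e4 := mul_le_mul_of_nonneg_left h4 hn0
    have e5 := mul_le_mul_of_nonneg_right hQn (mul_nonneg hk hn0)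
    have e6 : k * n ^ 2 + g * n ^ 2 + h * n ^ 2 = n * (k * n) + n * (n * g + n * h) := by ring
    rw [e6] at hE
    linarith
  rw [path_count] at h5
  -- the three parts of Q
  set S := Q.filter (fun x => ((Nm adj x ∩ Q).card : ℝ) < lam) with hS
  set S' := Q.filter (fun x => ((Np adj x ∩ Q).card : ℝ) < lam) with hS'
  set P := Q.filter (fun x => lam ≤ ((Nm adj x ∩ Q).card : ℝ) ∧
    lam ≤ ((Np adj x ∩ Q).card : ℝ)) with hP
  have hSb : (S.card : ℝ) ≤ max (2 * h) (4 * lam / c) := by
    apply few_in hG hh hc hPR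
    intro x hx
    have hxS := hx
    rw [hS, mem_filter] at hx
    refine le_trans ?_ hx.2.le
    exact_mod_cast card_le_card (inter_subset_inter_left (filter_subset _ _))
  have hSb' : (S'.card : ℝ) ≤ max (2 * h) (4 * lam / c) := by
    apply few_out hG hh hc hPR
    intro x hx
    rw [hS', mem_filter] at hx
    refine le_trans ?_ hx.2.le
    exact_mod_cast card_le_card (inter_subset_inter_left (filter_subset _ _))
  have hPb : (P.card : ℝ) ≤ a := by
    have e1 : ∑ x ∈ P, lam ^ 2 ≤ ∑ x ∈ P, ((Nm adj x ∩ Q).card : ℝ) * ((Np adj x ∩ Q).card : ℝ) := by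
      refine sum_le_sum fun x hx => ?_
      rw [hP, mem_filter] at hx
      rw [sq]
      exact mul_le_mul hx.2.1 hx.2.2 hlam.le (by positivity)
    have e2 : ∑ x ∈ P, ((Nm adj x ∩ Q).card : ℝ) * ((Np adj x ∩ Q).card : ℝ) ≤
        ∑ x, ((Nm adj x ∩ Q).card : ℝ) * ((Np adj x ∩ Q).card : ℝ) :=
      sum_le_sum_of_subset_of_nonneg (subset_univ _) (fun _ _ _ => by positivity)
    rw [sum_const, nsmul_eq_mul] at e1
    have e3 : lam ^ 2 * (P.card : ℝ) ≤ lam ^ 2 * a := by linarith
    exact le_of_mul_le_mul_left e3 (by positivity)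
  have hcov : Q ⊆ S ∪ S' ∪ P := by
    intro x hx
    rw [mem_union, mem_union, hS, hS', hP, mem_filter, mem_filter, mem_filter]
    by_cases h1 : ((Nm adj x ∩ Q).card : ℝ) < lam
    · exact Or.inl (Or.inl ⟨hx, h1⟩)
    · by_cases h2 : ((Np adj x ∩ Q).card : ℝ) < lam
      · exact Or.inl (Or.inr ⟨hx, h2⟩)
      · exact Or.inr ⟨hx, not_lt.1 h1, not_lt.1 h2⟩
  have hcard : (Q.card : ℝ) ≤ S.card + S'.card + P.card := by
    have := (card_le_card hcov).trans ((card_union_le _ _).trans
      (Nat.add_le_add_right (card_union_le _ _) _))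
    exact_mod_cast this
  linarith

open Classical in
/-- **Deterministic theorem.** If `G` on `n` vertices has the expansion property `PR G h c`, every
orientation has a vertex from which all but `< ζ n` vertices are reached by a path of length
exactly two. -/
theorem det [Nonempty V] {G adj : V → V → Prop} (hG : ∀ x y, G x y → adj x y ∨ adj y x)
    {h c ζ : ℝ} (hh : 0 < h) (hc : 0 < c) (hc1 : c ≤ 1) (hζ : 0 < ζ)
    (hPR : PR G h c) (J : ℕ) (hJ : 1 ≤ J * (c ^ 2 * ζ ^ 3 / 16384))
    (hhJ : 2 * h * (2 / c) ^ J ≤ c ^ 2 * ζ ^ 3 / 16384 * (Fintype.card V : ℝ))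
    (hhζ : 16 * h ≤ ζ * (Fintype.card V : ℝ)) :
    ∃ v, (({z : V | ¬ ∃ u : V, adj v u ∧ adj u z}).ncard : ℝ) <
      ζ * (Fintype.card V : ℝ) := by
  by_contra hcon
  push Not at hcon
  have hcon : ∀ v, ζ * (Fintype.card V : ℝ) ≤
      ((univ.filter (fun z => Np adj v ∩ Nm adj z = ∅)).card : ℝ) := by
    intro v
    refine (hcon v).trans (le_of_eq ?_)
    have e1 : {z : V | ∀ u : V, adj v u → ¬ adj u z} =
        ↑(univ.filter (fun z => Np adj v ∩ Nm adj z = ∅)) := by
      ext z
      simp only [Set.mem_ofPred_eq, Finset.mem_coe, mem_filter, mem_univ, true_and]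
      rw [Finset.eq_empty_iff_forall_notMem]
      unfold Np Nm
      simp
    rw [e1, Set.ncard_coe_finset]
  set n : ℝ := (Fintype.card V : ℝ) with hn
  have hn0 : 0 < n := by
    rw [hn]
    exact_mod_cast Fintype.card_pos
  have hex : ∀ i, ∃ v, ∀ w, (T adj (kap h c i) v).card ≤ (T adj (kap h c i) w).card := by
    intro i
    obtain ⟨v, _, hv⟩ := exists_min_image (univ : Finset V)
      (fun v => (T adj (kap h c i) v).card) univ_nonempty
    exact ⟨v, fun w => hv w (mem_univ w)⟩
  choose vv hvv using hex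
  have hbase : ∀ v i, ζ * n ≤ ((T adj (kap h c i) v).card : ℝ) := by
    intro v i
    refine (hcon v).trans ?_
    have : univ.filter (fun z => Np adj v ∩ Nm adj z = ∅) ⊆ T adj (kap h c i) v := by
      intro z hz
      rw [mem_filter] at hz
      unfold T
      rw [mem_filter, hz.2]
      refine ⟨mem_univ _, ?_⟩
      simp only [card_empty, Nat.cast_zero]
      exact kap_nonneg hh i
    exact_mod_cast card_le_card this
  obtain ⟨i, hi, hi2⟩ := pigeon (fun i => (T adj (kap h c i) (vv i)).card) (Fintype.card V) J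
    (fun i => card_le_univ _) (c ^ 2 * ζ ^ 3 / 16384) hJ (by
      have h1 := hbase (vv 0) 0
      have h2 : (0 : ℝ) < ((T adj (kap h c 0) (vv 0)).card : ℝ) :=
        lt_of_lt_of_le (by positivity) h1
      exact_mod_cast h2)
  have hk := kap_nonneg (h := h) (c := c) hh i
  have hki : kap h c i ≤ c ^ 2 * ζ ^ 3 / 16384 * n := by
    refine (kap_le hh hc hc1 i).trans ?_
    refine le_trans ?_ hhJ
    have h2c : 1 ≤ 2 / c := by rw [le_div_iff₀ hc]; linarith
    exact mul_le_mul_of_nonneg_left (pow_le_pow_right₀ h2c hi.le) (by positivity)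
  have hhn : h ≤ c ^ 2 * ζ ^ 3 / 16384 * n := by
    have h2c : 1 ≤ 2 / c := by rw [le_div_iff₀ hc]; linarith
    have h3 := one_le_pow₀ h2c (n := J)
    nlinarith
  have hres := step (k := kap h c i) (k' := kap h c (i + 1)) (a := ζ * n / 4)
    (g := c ^ 2 * ζ ^ 3 / 16384 * n) (lam := c * ζ * n / 32) hG hh hc hPR hk rfl
    (kap_mono hh hc hc1 i) (vv (i + 1)) (by
      intro w
      have h1 : ((T adj (kap h c i) (vv i)).card : ℝ) ≤ ((T adj (kap h c i) w).card : ℝ) := by
        exact_mod_cast hvv i w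
      linarith) (by positivity) (by positivity) (by
      rw [← hn]
      have e1 : kap h c i * n ^ 2 ≤ c ^ 2 * ζ ^ 3 / 16384 * n * n ^ 2 :=
        mul_le_mul_of_nonneg_right hki (by positivity)
      have e2 : h * n ^ 2 ≤ c ^ 2 * ζ ^ 3 / 16384 * n * n ^ 2 :=
        mul_le_mul_of_nonneg_right hhn (by positivity)
      have e3 : (c * ζ * n / 32) ^ 2 * (ζ * n / 4) =
          4 * (c ^ 2 * ζ ^ 3 / 16384 * n * n ^ 2) := by ring
      have e4 : 0 ≤ c ^ 2 * ζ ^ 3 / 16384 * n * n ^ 2 := by positivity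
      rw [e3]
      linarith)
  have h1 := hbase (vv (i + 1)) i
  have h2 : max (2 * h) (4 * (c * ζ * n / 32) / c) ≤ ζ * n / 8 := by
    apply max_le
    · linarith
    · rw [div_le_iff₀ hc]
      apply le_of_eq
      ring
  have h3 : 0 < ζ * n := by positivity
  linarith

end Pool.Agent.Sully15
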