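import Pool.Agent.Sully15.Prob

/-!
MP_109285_co: every orientation of `G(n,p)`; assembly and parameters.
-/

namespace Pool.Agent.Sully15

open Finset Pool.Agent.GRig

/-- every orientation of `G` has a vertex `v` with
`|N2+(v)| ≥ |N-(v)| + (1 - p - ε) n` from which all but at most `ε n` vertices are reached by a
directed path of length exactly two -/
def Good (n : ℕ) (p ε : ℝ) (G : SimpleGraph (Fin n)) : Prop :=
  ∀ adj : Fin n → Fin n → Prop, (∀ x y, adj x y → ¬ adj y x) →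
    (∀ x y, (adj x y ∨ adj y x) ↔ G.Adj x y) →
    ∃ v : Fin n,
      ({u : Fin n | adj u v}.ncard : ℝ) + (1 - p - ε) * n ≤
        ({w : Fin n | w ≠ v ∧ ¬ adj v w ∧ ∃ u : Fin n, adj v u ∧ adj u w}.ncard : ℝ) ∧
      ({z : Fin n | ¬ ∃ u : Fin n, adj v u ∧ adj u z}.ncard : ℝ) ≤ ε * n

open Classical in
theorem good_of {n : ℕ} (hn : 0 < n) {p ε : ℝ} (hp0 : 0 < p) (hp1 : p ≤ 1) (hε0 : 0 < ε)
    (hε1 : ε ≤ 1) (h : ℕ) (hh : 0 < h) (J : ℕ)
    (hJ : 1 ≤ J * ((p / 8) ^ 2 * (ε / 2) ^ 3 / 16384))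
    (hhJ : 2 * (h : ℝ) * (2 / (p / 8)) ^ J ≤ (p / 8) ^ 2 * (ε / 2) ^ 3 / 16384 * (n : ℝ))
    (G : SimpleGraph (Fin n)) (hPR : PR G.Adj (h : ℝ) (p / 8))
    (hdeg : ∀ v, ((Nb G.Adj v).card : ℝ) ≤ (p + ε / 2) * n) : Good n p ε G := by
  intro adj hor hG
  have : Nonempty (Fin n) := ⟨⟨0, hn⟩⟩
  have hn0 : (0 : ℝ) < n := by exact_mod_cast hn
  have hh0 : (0 : ℝ) < h := by exact_mod_cast hh
  have hc0 : 0 < p / 8 := by positivity
  have h16 : 16 * (h : ℝ) ≤ ε / 2 * n := by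
    have h2c : 1 ≤ 2 / (p / 8) := by rw [le_div_iff₀ hc0]; linarith
    have h3 := one_le_pow₀ h2c (n := J)
    have h4 : 2 * (h : ℝ) ≤ (p / 8) ^ 2 * (ε / 2) ^ 3 / 16384 * (n : ℝ) := by
      refine le_trans ?_ hhJ
      nlinarith
    have h5 : (p / 8) ^ 2 * (ε / 2) ^ 3 / 16384 ≤ ε / 2 / 8 := by
      have e1 : (p / 8) ^ 2 ≤ 1 := pow_le_one₀ (by positivity) (by linarith)
      have e2 : (ε / 2) ^ 3 ≤ ε / 2 := by
        have : (ε / 2) ^ 2 ≤ 1 := pow_le_one₀ (by positivity) (by linarith)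
        nlinarith
      have e3 : 0 < (ε / 2) ^ 3 := by positivity
      nlinarith
    have h6 := mul_le_mul_of_nonneg_right h5 hn0.le
    linarith
  obtain ⟨v, hv⟩ := det (V := Fin n) (G := G.Adj) (adj := adj) (ζ := ε / 2)
    (fun x y hxy => (hG x y).2 hxy) hh0 hc0 (by linarith) (by positivity) hPR J hJ
    (by rw [Fintype.card_fin]; exact hhJ) (by rw [Fintype.card_fin]; exact h16)
  rw [Fintype.card_fin] at hv
  set Z : Finset (Fin n) := univ.filter (fun z => ¬ ∃ u : Fin n, adj v u ∧ adj u z) with hZ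
  have hZiff : ∀ z, z ∈ Z ↔ ¬ ∃ u : Fin n, adj v u ∧ adj u z := by
    intro z
    rw [hZ, mem_filter]
    simp
  have hZset : {z : Fin n | ¬ ∃ u : Fin n, adj v u ∧ adj u z} = ↑Z := by
    ext z
    rw [Set.mem_ofPred_eq, Finset.mem_coe, hZiff]
  rw [hZset, Set.ncard_coe_finset] at hv
  have hIset : {u : Fin n | adj u v} = ↑(Nm adj v) := by
    ext u
    unfold Nm
    simp
  set N2 : Finset (Fin n) :=
    univ.filter (fun w => w ≠ v ∧ ¬ adj v w ∧ ∃ u : Fin n, adj v u ∧ adj u w) with hN2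
  have hN2set : {w : Fin n | w ≠ v ∧ ¬ adj v w ∧ ∃ u : Fin n, adj v u ∧ adj u w} = ↑N2 := by
    ext w
    rw [hN2]
    simp
  refine ⟨v, ?_, ?_⟩
  · rw [hIset, hN2set, Set.ncard_coe_finset, Set.ncard_coe_finset]
    have h1 : (univ : Finset (Fin n)) ⊆ Np adj v ∪ N2 ∪ Z := by
      intro z _
      rw [mem_union, mem_union]
      by_cases hz : z ∈ Z
      · exact Or.inr hz
      · left
        rw [hZiff, not_not] at hz
        by_cases hvz : adj v z
        · left
          unfold Np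
          rw [mem_filter]
          exact ⟨mem_univ _, hvz⟩
        · right
          rw [hN2, mem_filter]
          refine ⟨mem_univ _, ?_, hvz, hz⟩
          rintro rfl
          obtain ⟨u, hu1, hu2⟩ := hz
          exact hor _ _ hu1 hu2
    have h2 : (n : ℝ) ≤ (Np adj v).card + N2.card + Z.card := by
      have h3 := (card_le_card h1).trans ((card_union_le _ _).trans
        (Nat.add_le_add_right (card_union_le _ _) _))
      rw [card_univ, Fintype.card_fin] at h3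
      exact_mod_cast h3
    have h4 : ((Np adj v).card : ℝ) + (Nm adj v).card = (Nb G.Adj v).card := by
      have h5 : Nb G.Adj v = Np adj v ∪ Nm adj v := by
        ext x
        unfold Nb Np Nm
        rw [mem_union, mem_filter, mem_filter, mem_filter, ← hG v x]
        simp
      rw [h5, card_union_of_disjoint]
      · push_cast
        ring
      · rw [disjoint_left]
        intro x hx hx2
        unfold Np at hx
        unfold Nm at hx2
        rw [mem_filter] at hx hx2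
        exact hor _ _ hx.2 hx2.2
    have h6 := hdeg v
    have hv' : (Z.card : ℝ) < ε / 2 * n := hv
    linarith
  · rw [hZset, Set.ncard_coe_finset]
    have hv' : (Z.card : ℝ) < ε / 2 * n := hv
    have : 0 < ε * n := by positivity
    linarith

theorem combine {n : ℕ} (hn : 0 < n) {p ε : ℝ} (hp0 : 0 < p) (hp1 : p ≤ 1) (hε0 : 0 < ε)
    (hε1 : ε ≤ 1) (h : ℕ) (hh : 0 < h) (J : ℕ)
    (hJ : 1 ≤ J * ((p / 8) ^ 2 * (ε / 2) ^ 3 / 16384))
    (hhJ : 2 * (h : ℝ) * (2 / (p / 8)) ^ J ≤ (p / 8) ^ 2 * (ε / 2) ^ 3 / 16384 * (n : ℝ)) :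
    1 - (4 ^ n * Real.exp (-(p / 8 * (h : ℝ) ^ 2)) + n * Real.exp (-((ε / 2) ^ 2 / 4 * n))) ≤
      prob n p (Good n p ε) := by
  rw [prob_eq]
  have e1 : pr p (fun ω : Sym2 (Fin n) → Bool => ¬ Good n p ε (gr ω)) ≤
      pr p (fun ω : Sym2 (Fin n) → Bool => (¬ PR (gr ω).Adj (h : ℝ) (p / 8)) ∨
        ¬ ∀ v, ((Nb (gr ω).Adj v).card : ℝ) ≤ (p + ε / 2) * n) := by
    refine pr_mono hp0.le hp1 fun ω hω => ?_
    by_contra hcon
    rw [not_or, not_not, not_not] at hcon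
    exact hω (good_of hn hp0 hp1 hε0 hε1 h hh J hJ hhJ (gr ω) hcon.1 hcon.2)
  have e2 := pr_or_le hp0.le hp1
    (fun ω : Sym2 (Fin n) → Bool => ¬ PR (gr ω).Adj (h : ℝ) (p / 8))
    (fun ω : Sym2 (Fin n) → Bool => ¬ ∀ v, ((Nb (gr ω).Adj v).card : ℝ) ≤ (p + ε / 2) * n)
  have e3 := pr_notPR (n := n) hp0.le hp1 h
  have e4 := pr_deg (n := n) (δ := ε / 2) hp0.le hp1 (by positivity) (by linarith)
  have e5 := pr_not p (fun ω : Sym2 (Fin n) → Bool => Good n p ε (gr ω))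
  linarith

/-- **Main theorem.** -/
theorem main (n : ℕ) (p ε : ℝ) (hp0 : 0 < p) (hp1 : p ≤ 1) (hε0 : 0 < ε) (hε1 : ε ≤ 1)
    (hpe : 2 ^ 30 * Real.log (16 / p) ≤ p ^ 2 * ε ^ 3 * Real.log n) :
    1 - Real.exp (-Real.sqrt n) ≤ prob n p (Good n p ε) := by
  set L := Real.log n with hL
  set q : ℝ := p ^ 2 * ε ^ 3 with hq
  have hq0 : 0 < q := by positivity
  have hq1 : q ≤ 1 := by
    have e1 : p ^ 2 ≤ 1 := pow_le_one₀ hp0.le hp1
    have e2 : ε ^ 3 ≤ 1 := pow_le_one₀ hε0.le hε1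
    rw [hq]
    nlinarith [pow_pos hp0 2, pow_pos hε0 3]
  have hqp : q ≤ p := by
    have e1 : p ^ 2 ≤ p := by nlinarith
    have e2 : ε ^ 3 ≤ 1 := pow_le_one₀ hε0.le hε1
    rw [hq]
    nlinarith [pow_pos hp0 2, pow_pos hε0 3]
  have hqe : q ≤ ε ^ 2 := by
    have e1 : p ^ 2 ≤ 1 := pow_le_one₀ hp0.le hp1
    have e2 : ε ^ 3 ≤ ε ^ 2 := pow_le_pow_of_le_one hε0.le hε1 (by norm_num)
    rw [hq]
    nlinarith [pow_pos hp0 2, pow_pos hε0 3]
  have hlog : 2 ≤ Real.log (16 / p) := by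
    rw [Real.le_log_iff_exp_le (by positivity)]
    have e1 : Real.exp 2 ≤ 16 := by
      have := Real.exp_one_lt_d9
      have e2 : Real.exp 2 = Real.exp 1 * Real.exp 1 := by rw [← Real.exp_add]; norm_num
      have e3 := Real.exp_pos 1
      rw [e2]
      nlinarith
    refine e1.trans ?_
    rw [le_div_iff₀ hp0]
    linarith
  have hqL : 2 ^ 31 ≤ q * L := by
    have : (2 : ℝ) ^ 31 = 2 ^ 30 * 2 := by norm_num
    linarith
  have hL31 : 2 ^ 31 ≤ L := by
    have hLpos : 0 < L := by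
      by_contra hcon
      rw [not_lt] at hcon
      have : q * L ≤ 0 := mul_nonpos_of_nonneg_of_nonpos hq0.le hcon
      linarith
    nlinarith
  have hL0 : 0 < L := by linarith
  have hn : 0 < n := by
    rcases Nat.eq_zero_or_pos n with h | h
    · exfalso
      rw [hL, h] at hL0
      simp at hL0
    · exact h
  have hn0 : (0 : ℝ) < n := by exact_mod_cast hn
  have hnexp : (n : ℝ) = Real.exp L := (Real.exp_log hn0).symm
  -- choice of `J` and `h`
  set J : ℕ := ⌈2 ^ 23 / q⌉₊ with hJdef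
  set h : ℕ := ⌈Real.exp (3 / 4 * L)⌉₊ with hhdef
  have hJlow : 2 ^ 23 / q ≤ J := Nat.le_ceil _
  have hJup : (J : ℝ) ≤ 2 ^ 24 / q := by
    have e1 : (J : ℝ) ≤ 2 ^ 23 / q + 1 :=
      (Nat.ceil_lt_add_one (by positivity : 0 ≤ 2 ^ 23 / q)).le
    have e2 : 1 ≤ 2 ^ 23 / q := by
      rw [le_div_iff₀ hq0]
      linarith
    have e3 : (2 : ℝ) ^ 24 / q = 2 ^ 23 / q + 2 ^ 23 / q := by ring
    rw [e3]
    linarith
  have hhlow : Real.exp (3 / 4 * L) ≤ h := Nat.le_ceil _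
  have hhup : (h : ℝ) ≤ 2 * Real.exp (3 / 4 * L) := by
    have e1 : (h : ℝ) ≤ Real.exp (3 / 4 * L) + 1 :=
      (Nat.ceil_lt_add_one (Real.exp_pos (3 / 4 * L)).le).le
    have e2 : 1 ≤ Real.exp (3 / 4 * L) := Real.one_le_exp (by positivity)
    linarith
  have hh : 0 < h := by
    have : (0 : ℝ) < h := lt_of_lt_of_le (Real.exp_pos _) hhlow
    exact_mod_cast this
  have hgam : (p / 8) ^ 2 * (ε / 2) ^ 3 / 16384 = q / 2 ^ 23 := by
    rw [hq]
    ring
  have hJ : 1 ≤ J * ((p / 8) ^ 2 * (ε / 2) ^ 3 / 16384) := by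
    rw [hgam]
    rw [div_le_iff₀ hq0] at hJlow
    have : (J : ℝ) * (q / 2 ^ 23) = J * q / 2 ^ 23 := by ring
    rw [this, le_div_iff₀ (by positivity)]
    linarith
  have hhJ : 2 * (h : ℝ) * (2 / (p / 8)) ^ J ≤ (p / 8) ^ 2 * (ε / 2) ^ 3 / 16384 * (n : ℝ) := by
    rw [hgam]
    have e1 : (2 / (p / 8)) = 16 / p := by
      field_simp
      norm_num
    have e2 : (2 / (p / 8)) ^ J ≤ Real.exp (L / 8) := by
      rw [e1]
      have e3 : (16 / p) ^ J = Real.exp (J * Real.log (16 / p)) := by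
        rw [Real.exp_nat_mul, Real.exp_log (by positivity)]
      rw [e3]
      apply Real.exp_le_exp.2
      have e4 : (J : ℝ) * Real.log (16 / p) ≤ 2 ^ 24 / q * Real.log (16 / p) :=
        mul_le_mul_of_nonneg_right hJup (by linarith)
      refine e4.trans ?_
      rw [div_mul_eq_mul_div, div_le_iff₀ hq0]
      have e5 : (2 : ℝ) ^ 30 = 2 ^ 24 * 64 := by norm_num
      have e6 : 0 < q * L := by positivity
      linarith
    have e3 : 2 * (h : ℝ) * (2 / (p / 8)) ^ J ≤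
        2 * (2 * Real.exp (3 / 4 * L)) * Real.exp (L / 8) := by
      apply mul_le_mul _ e2 (by positivity) (by positivity)
      linarith
    refine e3.trans ?_
    have e4 : 2 * (2 * Real.exp (3 / 4 * L)) * Real.exp (L / 8) = 4 * Real.exp (7 / 8 * L) := by
      have : Real.exp (7 / 8 * L) = Real.exp (3 / 4 * L) * Real.exp (L / 8) := by
        rw [← Real.exp_add]
        ring_nf
      rw [this]
      ring
    have e5 : (n : ℝ) = Real.exp (7 / 8 * L) * Real.exp (L / 8) := by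
      rw [hnexp, ← Real.exp_add]
      ring_nf
    rw [e4, e5]
    have e6 : 4 ≤ q / 2 ^ 23 * Real.exp (L / 8) := by
      have e7 : L / 8 ≤ Real.exp (L / 8) := by
        have := Real.add_one_le_exp (L / 8)
        linarith
      have e8 : q / 2 ^ 23 * (L / 8) ≤ q / 2 ^ 23 * Real.exp (L / 8) :=
        mul_le_mul_of_nonneg_left e7 (by positivity)
      refine le_trans ?_ e8
      have e9 : q / 2 ^ 23 * (L / 8) = q * L / 2 ^ 26 := by ring
      rw [e9, le_div_iff₀ (by positivity)]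
      have : (4 : ℝ) * 2 ^ 26 ≤ 2 ^ 31 := by norm_num
      linarith
    have e7 := Real.exp_pos (7 / 8 * L)
    nlinarith
  refine le_trans ?_ (combine hn hp0 hp1 hε0 hε1 h hh J hJ hhJ)
  -- the probabilities
  set r := Real.sqrt n with hr
  have hrexp : r = Real.exp (L / 2) := by
    rw [hr, hnexp, Real.exp_half]
  have hrr : (n : ℝ) = r * r := by
    rw [hrexp, ← Real.exp_add, hnexp]
    ring_nf
  have hrL : L / 2 + 1 ≤ r := by
    rw [hrexp]
    exact Real.add_one_le_exp _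
  have hr0 : 0 < r := by linarith
  have hr1 : 1 ≤ r := by linarith
  have hp31 : 2 ^ 31 / L ≤ q := by
    rw [div_le_iff₀ hL0]
    exact hqL
  have f1 : (4 : ℝ) ^ n * Real.exp (-(p / 8 * (h : ℝ) ^ 2)) ≤ Real.exp (-r - 1) := by
    have g1 : (4 : ℝ) ^ n ≤ Real.exp (2 * n) := by
      have g2 : (4 : ℝ) ≤ Real.exp 2 := by
        have e1 := Real.add_one_le_exp (1 : ℝ)
        have e2 : Real.exp 2 = Real.exp 1 * Real.exp 1 := by rw [← Real.exp_add]; norm_num
        rw [e2]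
        nlinarith
      have g3 := pow_le_pow_left₀ (by norm_num) g2 n
      rw [← Real.exp_nat_mul] at g3
      rw [mul_comm]
      exact g3
    have g4 : (4 : ℝ) ^ n * Real.exp (-(p / 8 * (h : ℝ) ^ 2)) ≤
        Real.exp (2 * n) * Real.exp (-(p / 8 * (h : ℝ) ^ 2)) :=
      mul_le_mul_of_nonneg_right g1 (Real.exp_pos _).le
    refine g4.trans ?_
    rw [← Real.exp_add]
    apply Real.exp_le_exp.2
    have g5 : (h : ℝ) ^ 2 ≥ n * r := by
      have g6 : (n : ℝ) * r = Real.exp (3 / 4 * L) ^ 2 := by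
        rw [hnexp, hrexp, ← Real.exp_add, sq, ← Real.exp_add]
        ring_nf
      rw [g6]
      exact pow_le_pow_left₀ (Real.exp_pos _).le hhlow 2
    have g7 : 4 * (n : ℝ) ≤ p / 8 * (h : ℝ) ^ 2 := by
      have g8 : p / 8 * (n * r) ≤ p / 8 * (h : ℝ) ^ 2 :=
        mul_le_mul_of_nonneg_left g5 (by positivity)
      refine le_trans ?_ g8
      have g9 : 32 ≤ p * r := by
        have g10 : q * (L / 2) ≤ p * r := by
          apply mul_le_mul hqp (by linarith) (by positivity) hp0.le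
        have : (32 : ℝ) ≤ 2 ^ 31 / 2 := by norm_num
        linarith
      nlinarith
    have g11 : r ≤ n := by
      rw [hrr]
      nlinarith
    have g12 : (1 : ℝ) ≤ n := by exact_mod_cast hn
    linarith
  have f2 : (n : ℝ) * Real.exp (-((ε / 2) ^ 2 / 4 * n)) ≤ Real.exp (-r - 1) := by
    have g1 : (n : ℝ) * Real.exp (-((ε / 2) ^ 2 / 4 * n)) =
        Real.exp (L - (ε / 2) ^ 2 / 4 * n) := by
      rw [sub_eq_add_neg, Real.exp_add, ← hnexp]
    rw [g1]
    apply Real.exp_le_exp.2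
    have g2 : 2 ^ 26 * r ≤ (ε / 2) ^ 2 / 4 * n := by
      have g3 : q * n ≤ ε ^ 2 * n := mul_le_mul_of_nonneg_right hqe hn0.le
      have g4 : 2 ^ 30 * r ≤ q * n := by
        rw [hrr]
        have g5 : 2 ^ 30 ≤ q * r := by
          have g6 : q * (L / 2) ≤ q * r := mul_le_mul_of_nonneg_left (by linarith) hq0.le
          have : (2 : ℝ) ^ 31 / 2 = 2 ^ 30 := by norm_num
          linarith
        nlinarith
      have g7 : (ε / 2) ^ 2 / 4 * n = ε ^ 2 * n / 16 := by ring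
      rw [g7]
      have : (2 : ℝ) ^ 30 = 2 ^ 26 * 16 := by norm_num
      linarith
    have g3 : L ≤ 2 * r := by linarith
    have g4 : (2 : ℝ) ^ 26 * r ≥ 4 * r := by
      have : (4 : ℝ) ≤ 2 ^ 26 := by norm_num
      nlinarith
    linarith
  have f3 : 2 * Real.exp (-r - 1) ≤ Real.exp (-r) := by
    have g1 : Real.exp (-r) = Real.exp (-r - 1) * Real.exp 1 := by
      rw [← Real.exp_add]
      ring_nf
    have g2 := Real.add_one_le_exp (1 : ℝ)
    have g3 := Real.exp_pos (-r - 1)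
    rw [g1]
    nlinarith
  linarith

end Pool.Agent.Sully15
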