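import Pool.Agent.Sully15.Fin2
import Pool.Agent.SulR.G
import Pool.Agent.SulR.Br

/-!
MP_109285_co: every orientation of `G(n,p)`, all `p` from `C n^(-1/21)` to `1 - C log n / n`.
-/

namespace Pool.Agent.Sully15

open Finset Pool.Agent.GRig

theorem prob_mono {n : ℕ} {p : ℝ} (h0 : 0 ≤ p) (h1 : p ≤ 1) {A B : SimpleGraph (Fin n) → Prop}
    (h : ∀ G, A G → B G) : prob n p A ≤ prob n p B := by
  rw [prob_eq, prob_eq]
  exact pr_mono h0 h1 fun ω hω => h _ hω

theorem GoodS_mono {n : ℕ} {s t : ℝ} (hst : s ≤ t) {G : SimpleGraph (Fin n)}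
    (h : GoodS n t G) : GoodS n s G := by
  intro adj hor hG
  obtain ⟨v, hv⟩ := h adj hor hG
  exact ⟨v, by linarith⟩

theorem joint (n : ℕ) (p : ℝ) (hp0 : 0 < p) (h1 : 10 ^ 97 ≤ p ^ 21 * n)
    (h2 : 10 ^ 10 * Real.log n ≤ (1 - p) * n) :
    1 - 1 / (n : ℝ) ≤ prob n p (GoodS n (p ^ 2 * (1 - p) * n / 2 ^ 22)) := by
  have hn0' : (0 : ℝ) ≤ n := by positivity
  have hn0 : (0 : ℝ) < n := by
    rcases hn0'.lt_or_eq with h | h
    · exact h
    · exfalso
      rw [← h] at h1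
      norm_num at h1
  have hn1 : (1 : ℝ) ≤ n := by
    have : 0 < n := by exact_mod_cast hn0
    exact_mod_cast this
  have hlog0 : 0 ≤ Real.log n := Real.log_nonneg hn1
  have hp1' : p ≤ 1 := by
    by_contra hcon
    rw [not_le] at hcon
    have e1 : (1 - p) * n < 0 := by nlinarith
    have e2 : 0 ≤ (10 : ℝ) ^ 10 * Real.log n := by positivity
    linarith
  have hnbig : (10 : ℝ) ^ 97 ≤ n := by
    refine h1.trans ?_
    have : p ^ 21 ≤ 1 := pow_le_one₀ hp0.le hp1'
    nlinarith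
  have hlog1 : 1 ≤ Real.log n := by
    rw [Real.le_log_iff_exp_le hn0]
    have e1 := Real.exp_one_lt_d9
    have e2 : (3 : ℝ) ≤ 10 ^ 97 := by norm_num
    linarith
  have hp1 : p < 1 := by
    by_contra hcon
    rw [not_lt] at hcon
    have e1 : (1 - p) * n ≤ 0 := by nlinarith
    linarith
  by_cases hq : (1 : ℝ) / 10 ^ 9 ≤ 1 - p
  · -- dense case
    have e1 : (2 : ℝ) ^ 232 ≤ p ^ 21 * (1 - p) ^ 3 * n := by
      have f1 : ((1 : ℝ) / 10 ^ 9) ^ 3 ≤ (1 - p) ^ 3 := pow_le_pow_left₀ (by positivity) hq 3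
      have f2 : (10 : ℝ) ^ 97 * ((1 : ℝ) / 10 ^ 9) ^ 3 ≤ (p ^ 21 * n) * (1 - p) ^ 3 :=
        mul_le_mul h1 f1 (by positivity) (by positivity)
      have f3 : (2 : ℝ) ^ 232 ≤ (10 : ℝ) ^ 97 * ((1 : ℝ) / 10 ^ 9) ^ 3 := by norm_num
      have f4 : p ^ 21 * (1 - p) ^ 3 * n = (p ^ 21 * n) * (1 - p) ^ 3 := by ring
      rw [f4]
      linarith
    refine le_trans ?_ (main2 n p hp0 hp1 e1)
    set s := Real.sqrt n with hs
    have hss : s * s = n := Real.mul_self_sqrt hn0.le
    have hs16 : 16 ≤ s := by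
      rw [hs]
      apply Real.le_sqrt_of_sq_le
      have : (16 : ℝ) ^ 2 ≤ 10 ^ 97 := by norm_num
      linarith
    have e2 : (n : ℝ) ≤ Real.exp s := by
      have f1 := Real.add_one_le_exp (s / 4)
      have f2 : Real.exp s = Real.exp (s / 4) ^ 4 := by
        rw [← Real.exp_nat_mul]
        congr 1
        push_cast
        ring
      have f3 : (s / 4) ^ 4 ≤ Real.exp (s / 4) ^ 4 :=
        pow_le_pow_left₀ (by positivity) (by linarith) 4
      have f4 : (s / 4) ^ 4 = s * s * (s * s / 256) := by ring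
      have f5 : 1 ≤ s * s / 256 := by
        rw [le_div_iff₀ (by norm_num)]
        nlinarith
      rw [f2]
      refine le_trans ?_ f3
      rw [f4, hss]
      nlinarith
    have e3 : Real.exp (-s) ≤ 1 / (n : ℝ) := by
      rw [Real.exp_neg, ← one_div]
      exact one_div_le_one_div_of_le hn0 e2
    linarith
  · -- nearly complete case
    rw [not_le] at hq
    have hn3 : 3 ≤ n := by
      have : (3 : ℝ) ≤ n := by
        have e2 : (3 : ℝ) ≤ 10 ^ 97 := by norm_num
        linarith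
      exact_mod_cast this
    refine (SulR.nice_prob n p hn3 ?_ hq.le).trans (prob_mono hp0.le hp1' fun G hG => ?_)
    · rw [div_le_iff₀ hn0]
      exact h2
    · refine GoodS_mono ?_ (SulR.nice_good n p (by omega) G hG)
      have e1 : p ^ 2 ≤ 1 := pow_le_one₀ hp0.le hp1'
      have e2 : 0 ≤ (1 - p) * n := by
        have : 0 ≤ 1 - p := by linarith
        positivity
      have e3 : p ^ 2 * (1 - p) * n / 2 ^ 22 = p ^ 2 * ((1 - p) * n) / 2 ^ 22 := by ring
      rw [e3, div_le_div_iff₀ (by positivity) (by positivity)]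
      nlinarith

end Pool.Agent.Sully15
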