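import Pool.Agent.GRig.Conv
import Pool.Agent.Sully15.Det

/-!
MP_109285_co, probability part: the expansion property and the degrees of `G(n,p)`.
-/

namespace Pool.Agent.Sully15

open Finset Pool.Agent.GRig

theorem inter_inst {α : Type*} (i j : DecidableEq α) (A B : Finset α) :
    (@Inter.inter _ (@Finset.instInter α i) A B).card =
      (@Inter.inter _ (@Finset.instInter α j) A B).card := by
  have : i = j := Subsingleton.elim _ _
  rw [this]

section bits

variable {ι : Type*} [Fintype ι] [DecidableEq ι]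

/-- number of true bits in `F` -/
def cnt (F : Finset ι) (ω : ι → Bool) : ℕ := (F.filter (fun e => ω e = true)).card

theorem moment (p s : ℝ) (F : Finset ι) :
    ∑ ω : ι → Bool, wt p ω * s ^ (cnt F ω) = (1 - p + p * s) ^ F.card := by
  have h := Finset.prod_univ_sum (fun _ : ι => (Finset.univ : Finset Bool))
    (fun i b => bw p b * (if i ∈ F then (if b = true then s else 1) else 1))
  rw [Fintype.piFinset_univ] at h
  have h2 : ∀ i : ι, (∑ b : Bool, bw p b * (if i ∈ F then (if b = true then s else 1) else 1)) =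
      if i ∈ F then (1 - p + p * s) else 1 := by
    intro i
    by_cases hi : i ∈ F
    · simp [hi, bw]; ring
    · simp [hi, bw]
  rw [Finset.prod_congr rfl (fun i _ => h2 i)] at h
  have h3 : (∏ i : ι, if i ∈ F then (1 - p + p * s) else 1) = (1 - p + p * s) ^ F.card := by
    rw [Finset.prod_ite_mem]
    simp
  rw [← h3, h]
  refine Finset.sum_congr rfl fun ω _ => ?_
  rw [Finset.prod_mul_distrib]
  congr 1
  unfold cnt
  rw [Finset.prod_ite_mem, Finset.univ_inter, Finset.prod_ite, Finset.prod_const,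
    Finset.prod_const_one, mul_one]

theorem tail {p θ : ℝ} (h0 : 0 ≤ p) (h1 : p ≤ 1) (hθ : |θ| ≤ 1) (F : Finset ι) (u : ℝ) :
    pr p (fun ω : ι → Bool => u ≤ θ * (cnt F ω : ℝ)) ≤
      Real.exp (-u + p * (θ + θ ^ 2) * F.card) := by
  have e1 : pr p (fun ω : ι → Bool => u ≤ θ * (cnt F ω : ℝ)) ≤
      Real.exp (-u) * ∑ ω : ι → Bool, wt p ω * (Real.exp θ) ^ (cnt F ω) := by
    unfold pr
    rw [Finset.mul_sum]
    refine Finset.sum_le_sum fun ω _ => ?_
    have hw := wt_nonneg h0 h1 ω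
    have e2 : Real.exp (-u) * (wt p ω * (Real.exp θ) ^ (cnt F ω)) =
        wt p ω * Real.exp (θ * (cnt F ω : ℝ) - u) := by
      rw [← Real.exp_nat_mul, sub_eq_add_neg, Real.exp_add]
      ring_nf
    rw [e2]
    split_ifs with hu
    · have : 1 ≤ Real.exp (θ * (cnt F ω : ℝ) - u) := Real.one_le_exp (by linarith)
      nlinarith
    · positivity
  rw [moment] at e1
  refine e1.trans ?_
  rw [Real.exp_add]
  apply mul_le_mul_of_nonneg_left _ (Real.exp_pos _).le
  have e3 : 1 - p + p * Real.exp θ ≤ Real.exp (p * (θ + θ ^ 2)) := by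
    have e4 := Real.abs_exp_sub_one_sub_id_le hθ
    have e5 := (abs_le.1 e4).2
    have e6 := Real.add_one_le_exp (p * (θ + θ ^ 2))
    nlinarith
  have e7 : 0 ≤ 1 - p + p * Real.exp θ := by
    have := Real.exp_pos θ
    nlinarith
  have e8 := pow_le_pow_left₀ e7 e3 F.card
  rw [← Real.exp_nat_mul] at e8
  rw [mul_comm (p * (θ + θ ^ 2))]
  exact e8

end bits

variable {n : ℕ}

open Classical in
/-- number of edges between disjoint sets -/
theorem cnt_prod (ω : Sym2 (Fin n) → Bool) (X Y : Finset (Fin n)) (hd : Disjoint X Y) :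
    cnt ((Y ×ˢ X).image (fun q => s(q.1, q.2))) ω = ∑ y ∈ Y, (Nb (gr ω).Adj y ∩ X).card := by
  have hne : ∀ y ∈ Y, ∀ x ∈ X, y ≠ x := by
    intro y hy x hx h
    subst h
    exact (Finset.disjoint_left.1 hd hx) hy
  unfold cnt
  rw [Finset.filter_image, Finset.card_image_of_injOn]
  · rw [Finset.card_filter, Finset.sum_product]
    refine Finset.sum_congr rfl fun y hy => ?_
    rw [← Finset.card_filter]
    congr 1
    ext x
    unfold Nb
    simp only [Finset.mem_filter, Finset.mem_inter, Finset.mem_univ, true_and]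
    constructor
    · rintro ⟨hx, h⟩
      exact ⟨⟨hne y hy x hx, h⟩, hx⟩
    · rintro ⟨h, hx⟩
      exact ⟨hx, h.2⟩
  · intro a ha b hb hab
    simp only [Finset.coe_filter, Set.mem_ofPred_eq, Finset.mem_product] at ha hb
    simp only [Sym2.eq_iff] at hab
    rcases hab with h | h
    · exact Prod.ext h.1 h.2
    · exact absurd h.1 (hne _ ha.1.1 _ hb.1.2)

open Classical in
theorem card_prod_image (X Y : Finset (Fin n)) (hd : Disjoint X Y) :
    ((Y ×ˢ X).image (fun q => s(q.1, q.2))).card = Y.card * X.card := by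
  have hne : ∀ y ∈ Y, ∀ x ∈ X, y ≠ x := by
    intro y hy x hx h
    subst h
    exact (Finset.disjoint_left.1 hd hx) hy
  rw [Finset.card_image_of_injOn, Finset.card_product]
  intro a ha b hb hab
  simp only [Finset.coe_product, Set.mem_prod, Finset.mem_coe] at ha hb
  simp only [Sym2.eq_iff] at hab
  rcases hab with h | h
  · exact Prod.ext h.1 h.2
  · exact absurd h.1 (hne _ ha.1 _ hb.2)

open Classical in
/-- one pair of sets -/
theorem bad_pair {p : ℝ} (h0 : 0 ≤ p) (h1 : p ≤ 1) (X Y : Finset (Fin n)) (hd : Disjoint X Y) :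
    pr p (fun ω : Sym2 (Fin n) → Bool =>
        ∀ y ∈ Y, ((Nb (gr ω).Adj y ∩ X).card : ℝ) < p / 4 * X.card) ≤
      Real.exp (-(p / 8 * (Y.card * X.card))) := by
  have h2 : pr p (fun ω : Sym2 (Fin n) → Bool =>
        ∀ y ∈ Y, ((Nb (gr ω).Adj y ∩ X).card : ℝ) < p / 4 * X.card) ≤
      pr p (fun ω : Sym2 (Fin n) → Bool =>
        -(p / 8 * (Y.card * X.card)) ≤
          (-1 / 2) * (cnt ((Y ×ˢ X).image (fun q => s(q.1, q.2))) ω : ℝ)) := by
    refine pr_mono h0 h1 fun ω hω => ?_
    rw [cnt_prod ω X Y hd]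
    push_cast
    have h3 : ∑ y ∈ Y, ((Nb (gr ω).Adj y ∩ X).card : ℝ) ≤ ∑ y ∈ Y, (p / 4 * X.card) :=
      Finset.sum_le_sum fun y hy => (hω y hy).le
    rw [Finset.sum_const, nsmul_eq_mul] at h3
    linarith
  refine h2.trans ((tail h0 h1 (by rw [abs_le]; constructor <;> norm_num) _ _).trans ?_)
  rw [card_prod_image X Y hd]
  apply Real.exp_le_exp.2
  push_cast
  have : 0 ≤ p * ((Y.card : ℝ) * X.card) := by positivity
  linarith

open Classical in
/-- the expansion property fails with small probability -/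
theorem pr_notPR {p : ℝ} (h0 : 0 ≤ p) (h1 : p ≤ 1) (h : ℕ) :
    pr p (fun ω : Sym2 (Fin n) → Bool => ¬ PR (gr ω).Adj (h : ℝ) (p / 8)) ≤
      4 ^ n * Real.exp (-(p / 8 * (h : ℝ) ^ 2)) := by
  have e1 : pr p (fun ω : Sym2 (Fin n) → Bool => ¬ PR (gr ω).Adj (h : ℝ) (p / 8)) ≤
      pr p (fun ω : Sym2 (Fin n) → Bool =>
        ∃ k ∈ (Finset.univ : Finset (Finset (Fin n) × Finset (Fin n))).filter
          (fun k => Disjoint k.1 k.2 ∧ k.2.card = h ∧ h ≤ k.1.card),
          ∀ y ∈ k.2, ((Nb (gr ω).Adj y ∩ k.1).card : ℝ) < p / 4 * k.1.card) := by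
    refine pr_mono h0 h1 fun ω hω => ?_
    unfold PR at hω
    push Not at hω
    obtain ⟨X, Y, hX, hY, hXY⟩ := hω
    have hY' : h ≤ Y.card := by exact_mod_cast hY
    have hX' : 2 * h ≤ X.card := by exact_mod_cast hX
    obtain ⟨Y', hY'1, hY'2⟩ := Finset.exists_subset_card_eq hY'
    have hc1 : X.card ≤ (X \ Y').card + h := by
      rw [← hY'2]
      exact Finset.card_le_card_sdiff_add_card
    refine ⟨(X \ Y', Y'), ?_, ?_⟩
    · rw [Finset.mem_filter]
      exact ⟨Finset.mem_univ _, Finset.sdiff_disjoint, hY'2, by dsimp only; omega⟩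
    · intro y hy
      have h3 : ((Nb (gr ω).Adj y ∩ X).card : ℝ) < p / 8 * X.card :=
        lt_of_eq_of_lt (by rw [inter_inst]) (hXY y (hY'1 hy))
      dsimp only
      have h4 : ((Nb (gr ω).Adj y ∩ (X \ Y')).card : ℝ) ≤ ((Nb (gr ω).Adj y ∩ X).card : ℝ) := by
        exact_mod_cast Finset.card_le_card (Finset.inter_subset_inter_left Finset.sdiff_subset)
      have h5 : (X.card : ℝ) ≤ 2 * ((X \ Y').card : ℝ) := by
        have : X.card ≤ 2 * (X \ Y').card := by omega
        exact_mod_cast this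
      have h6 := mul_le_mul_of_nonneg_left h5 (by positivity : 0 ≤ p / 8)
      linarith
  refine e1.trans ((pr_exists_le h0 h1 _ _).trans ?_)
  have e2 : ∀ k ∈ (Finset.univ : Finset (Finset (Fin n) × Finset (Fin n))).filter
      (fun k => Disjoint k.1 k.2 ∧ k.2.card = h ∧ h ≤ k.1.card),
      pr p (fun ω : Sym2 (Fin n) → Bool =>
        ∀ y ∈ k.2, ((Nb (gr ω).Adj y ∩ k.1).card : ℝ) < p / 4 * k.1.card) ≤
      Real.exp (-(p / 8 * (h : ℝ) ^ 2)) := by
    intro k hk
    rw [Finset.mem_filter] at hk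
    obtain ⟨-, hk1, hk2, hk3⟩ := hk
    refine (bad_pair h0 h1 k.1 k.2 hk1).trans (Real.exp_le_exp.2 ?_)
    rw [hk2]
    have h4 : (h : ℝ) ≤ k.1.card := by exact_mod_cast hk3
    have h5 : (h : ℝ) ^ 2 ≤ (h : ℝ) * k.1.card := by
      rw [sq]; exact mul_le_mul_of_nonneg_left h4 (by positivity)
    have h6 := mul_le_mul_of_nonneg_left h5 (by positivity : 0 ≤ p / 8)
    linarith
  refine (Finset.sum_le_sum e2).trans ?_
  rw [Finset.sum_const, nsmul_eq_mul]
  apply mul_le_mul_of_nonneg_right _ (Real.exp_pos _).le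
  have e3 : ((Finset.univ : Finset (Finset (Fin n) × Finset (Fin n))).filter
      (fun k => Disjoint k.1 k.2 ∧ k.2.card = h ∧ h ≤ k.1.card)).card ≤ 4 ^ n := by
    refine (Finset.card_le_univ _).trans ?_
    rw [Fintype.card_prod, Fintype.card_finset, Fintype.card_fin, ← mul_pow]
    norm_num
  exact_mod_cast e3

open Classical in
theorem cnt_star (ω : Sym2 (Fin n) → Bool) (v : Fin n) :
    cnt ((Finset.univ.erase v).image (fun x => s(v, x))) ω = (Nb (gr ω).Adj v).card := by
  unfold cnt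
  rw [Finset.filter_image, Finset.card_image_of_injOn]
  · congr 1
    ext x
    unfold Nb
    simp only [Finset.mem_filter, Finset.mem_erase, Finset.mem_univ, and_true, true_and]
    constructor
    · rintro ⟨hx, h⟩
      exact ⟨hx.symm, h⟩
    · rintro ⟨h1, h2⟩
      exact ⟨h1.symm, h2⟩
  · intro a _ b _ hab
    simp only [Sym2.eq_iff] at hab
    rcases hab with h | h
    · exact h.2
    · rw [h.2, ← h.1]

open Classical in
/-- some degree is large with small probability -/
theorem pr_deg {p δ : ℝ} (h0 : 0 ≤ p) (h1 : p ≤ 1) (hδ0 : 0 ≤ δ) (hδ1 : δ ≤ 1) :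
    pr p (fun ω : Sym2 (Fin n) → Bool =>
        ¬ ∀ v, ((Nb (gr ω).Adj v).card : ℝ) ≤ (p + δ) * n) ≤
      n * Real.exp (-(δ ^ 2 / 4 * n)) := by
  have e1 : pr p (fun ω : Sym2 (Fin n) → Bool =>
        ¬ ∀ v, ((Nb (gr ω).Adj v).card : ℝ) ≤ (p + δ) * n) ≤
      pr p (fun ω : Sym2 (Fin n) → Bool => ∃ v ∈ (Finset.univ : Finset (Fin n)),
        δ / 2 * ((p + δ) * n) ≤
          δ / 2 * (cnt ((Finset.univ.erase v).image (fun x => s(v, x))) ω : ℝ)) := by
    refine pr_mono h0 h1 fun ω hω => ?_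
    push Not at hω
    obtain ⟨v, hv⟩ := hω
    refine ⟨v, Finset.mem_univ _, ?_⟩
    rw [cnt_star]
    exact mul_le_mul_of_nonneg_left hv.le (by positivity)
  refine e1.trans ((pr_exists_le h0 h1 _ _).trans ?_)
  have e2 : ∀ v ∈ (Finset.univ : Finset (Fin n)), pr p (fun ω : Sym2 (Fin n) → Bool =>
        δ / 2 * ((p + δ) * n) ≤
          δ / 2 * (cnt ((Finset.univ.erase v).image (fun x => s(v, x))) ω : ℝ)) ≤
      Real.exp (-(δ ^ 2 / 4 * n)) := by
    intro v _
    refine (tail h0 h1 (by rw [abs_le]; constructor <;> linarith) _ _).trans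
      (Real.exp_le_exp.2 ?_)
    have h2 : (((Finset.univ.erase v).image (fun x => s(v, x))).card : ℝ) ≤ n := by
      have : ((Finset.univ.erase v).image (fun x => s(v, x))).card ≤ n := by
        refine Finset.card_image_le.trans ?_
        refine (Finset.card_le_univ _).trans ?_
        rw [Fintype.card_fin]
      exact_mod_cast this
    have h3 := mul_le_mul_of_nonneg_left h2
      (by positivity : 0 ≤ p * (δ / 2 + (δ / 2) ^ 2))
    have h4 : p * (δ / 2) ^ 2 * n ≤ (δ / 2) ^ 2 * n := by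
      have : 0 ≤ (δ / 2) ^ 2 * n := by positivity
      nlinarith
    nlinarith
  refine (Finset.sum_le_sum e2).trans ?_
  rw [Finset.sum_const, nsmul_eq_mul, Finset.card_univ, Fintype.card_fin]

end Pool.Agent.Sully15
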