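import Pool.Agent.Sully15.Walk

/-!
MP_109285_co, second deterministic part, continued: steps 3 to 5 and the conclusion.
-/

namespace Pool.Agent.Sully15

open Finset

variable {V : Type} [Fintype V]

theorem mS_mono (H : V → V → Prop) (x : V) {S T : Finset V} (h : S ⊆ T) : mS H x S ≤ mS H x T := by
  classical
  unfold mS
  exact card_le_card (filter_subset_filter _ h)

open Classical in
/-- unreached in-neighbours -/
noncomputable def Zb (adj : V → V → Prop) (x : V) : Finset V :=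
  (Zn adj x).filter (fun u => adj u x)

open Classical in
theorem zn_card (adj : V → V → Prop) (x : V) :
    (Zn adj x).card ≤ (Zb adj x).card + mS (Hn adj) x (Zn adj x) := by
  have h1 : Zn adj x ⊆ Zb adj x ∪ (Zn adj x).filter (fun u => Hn adj x u) := by
    intro z hz
    rw [mem_union]
    unfold Zb
    rw [mem_filter, mem_filter]
    have hz' := mem_Zn.1 hz
    by_cases h : adj z x
    · exact Or.inl ⟨hz, h⟩
    · exact Or.inr ⟨hz, hz'.1, hz'.2.1, h⟩
  have h2 := (card_le_card h1).trans (card_union_le _ _)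
  unfold mS
  exact h2

open Classical in
/-- **Step 3.** -/
theorem step3 {G adj : V → V → Prop} (hG : ∀ x y, G x y → adj x y ∨ adj y x) {h c τ r : ℝ}
    (hc : 0 < c) (hPR : PR G h c) (hτ0 : 0 < τ) (hτ1 : τ ≤ 1) (hr : 0 < r)
    (hht : 2 * h ≤ τ * r) (x : V) (hdeg : (mS (Hn adj) x (Zn adj x) : ℝ) ≤ 2 * r)
    (hx : τ * r ≤ ((Zb adj x).card : ℝ)) :
    c * τ ^ 2 * r / 12 ≤ ∑ y, Kw adj x y * ((Np adj y ∩ Nm adj x).card : ℝ) := by
  set b : ℝ := ((Zb adj x).card : ℝ) with hb
  set z : ℝ := ((Zn adj x).card : ℝ) with hz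
  have hb0 : 0 < b := lt_of_lt_of_le (by positivity) hx
  have hzb : b ≤ z := by
    rw [hb, hz]
    exact_mod_cast card_le_card (filter_subset _ _)
  have hz0 : 0 < z := lt_of_lt_of_le hb0 hzb
  have hz2 : z ≤ b + 2 * r := by
    have h1 := zn_card adj x
    have h2 : z ≤ b + (mS (Hn adj) x (Zn adj x) : ℝ) := by
      rw [hb, hz]
      exact_mod_cast h1
    linarith
  have h3 := arcs_ge hG hc hPR (Zb adj x) (hht.trans hx)
  have h4 : ∑ y ∈ Zb adj x, (1 / z) * ((Np adj y ∩ Zb adj x).card : ℝ) ≤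
      ∑ y, Kw adj x y * ((Np adj y ∩ Nm adj x).card : ℝ) := by
    have h5 : ∑ y ∈ Zb adj x, (1 / z) * ((Np adj y ∩ Zb adj x).card : ℝ) ≤
        ∑ y ∈ Zb adj x, Kw adj x y * ((Np adj y ∩ Nm adj x).card : ℝ) := by
      refine sum_le_sum fun y hy => ?_
      have hy2 : y ∈ Zn adj x := (mem_filter.1 hy).1
      have h6 : Kw adj x y = 1 / z := by
        unfold Kw
        rw [if_pos hy2]
      rw [h6]
      apply mul_le_mul_of_nonneg_left _ (by positivity)
      have h7 : Np adj y ∩ Zb adj x ⊆ Np adj y ∩ Nm adj x := by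
        intro u hu
        rw [mem_inter] at hu ⊢
        refine ⟨hu.1, ?_⟩
        rw [mem_Nm]
        exact (mem_filter.1 hu.2).2
      exact_mod_cast card_le_card h7
    exact h5.trans (sum_le_sum_of_subset_of_nonneg (subset_univ _) (fun y _ _ =>
      mul_nonneg (Kw_nonneg adj x y) (by positivity)))
  refine le_trans ?_ h4
  rw [← mul_sum]
  have h5 : (1 / z) * (c / 4 * b ^ 2) ≤ (1 / z) * ∑ y ∈ Zb adj x,
      ((Np adj y ∩ Zb adj x).card : ℝ) := mul_le_mul_of_nonneg_left h3 (by positivity)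
  refine le_trans ?_ h5
  have h6 : (1 / z) * (c / 4 * b ^ 2) = c * (b ^ 2 / z) / 4 := by ring
  rw [h6]
  have h7 : τ ^ 2 * r / 3 ≤ b ^ 2 / z := by
    rw [le_div_iff₀ hz0]
    have e1 : τ ^ 2 * r / 3 * z ≤ τ ^ 2 * r / 3 * (b + 2 * r) :=
      mul_le_mul_of_nonneg_left hz2 (by positivity)
    have e2 : τ ^ 2 * r * b ≤ b * b := by
      have : τ ^ 2 * r ≤ b := by nlinarith
      exact mul_le_mul_of_nonneg_right this hb0.le
    have e3 : (τ * r) * (τ * r) ≤ b * b := mul_le_mul hx hx (by positivity) hb0.le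
    nlinarith
  nlinarith

open Classical in
/-- the vertices with many unreached in-neighbours -/
noncomputable def Wb (adj : V → V → Prop) (t : ℝ) : Finset V :=
  univ.filter (fun x => t ≤ ((Zb adj x).card : ℝ))

open Classical in
/-- **Step 4.** the number of bad vertices -/
theorem step4 {adj : V → V → Prop} {q e r t : ℝ} {k : ℕ}
    (hr : 0 < r) (hD : DD (Hn adj) q e k)
    (hdeg : ∀ x, (mS (Hn adj) x univ : ℝ) ≤ 2 * r) (htr : t ≤ r)
    (hz : ∀ x, r / 2 ≤ ((Zn adj x).card : ℝ))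
    (hz2 : ∀ x, (mS (Hn adj) x univ : ℝ) - t ≤ ((Zn adj x).card : ℝ)) (π : V → ℝ)
    (hch : Sul.Chain (Kw adj) π) (hk : 8 * (k : ℝ) ≤ r)
    (hW : ∑ x ∈ Wb adj t, π x ≤ 1 / 4) :
    q * ((Wb adj t).card : ℝ) ≤ 6 * r * (∑ x ∈ Wb adj t, π x) + e + 2 * t := by
  have hK0 := hch.knn
  have hp0 := hch.pnn
  have hKle : ∀ x y, Kw adj x y ≤ 2 / r := fun x y => Kw_le hr x y (hz x)
  have hple : ∀ y, π y ≤ 2 / r := by
    intro y
    rw [← hch.stat y]
    calc ∑ v, π v * Kw adj v y ≤ ∑ v, π v * (2 / r) :=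
          sum_le_sum fun v _ => mul_le_mul_of_nonneg_left (hKle v y) (hp0 v)
      _ = 2 / r := by rw [← sum_mul, hch.psum, one_mul]
  set W := Wb adj t with hWdef
  set P : ℝ := ∑ x ∈ W, π x with hP
  have hP0 : 0 ≤ P := sum_nonneg fun x _ => hp0 x
  set D : ℝ := q * (W.card : ℝ) - e - 2 * t with hDdef
  by_cases hDneg : D < 0
  · have : 0 ≤ 6 * r * P := by positivity
    linarith
  rw [not_lt] at hDneg
  -- exceptional mass
  have hE : ∑ x ∈ Em (Hn adj) q e W, π x ≤ 1 / 4 := by
    calc ∑ x ∈ Em (Hn adj) q e W, π x ≤ ∑ x ∈ Em (Hn adj) q e W, (2 / r) :=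
          sum_le_sum fun x _ => hple x
      _ = ((Em (Hn adj) q e W).card : ℝ) * (2 / r) := by rw [sum_const, nsmul_eq_mul]
      _ ≤ k * (2 / r) := mul_le_mul_of_nonneg_right (Em_card hD W) (by positivity)
      _ ≤ 1 / 4 := by
          rw [mul_div_assoc', div_le_iff₀ hr]
          linarith
  -- good vertices
  have h1 : ∀ x, x ∉ W → x ∉ Em (Hn adj) q e W → D / (3 * r) ≤ ∑ y ∈ W, Kw adj x y := by
    intro x hxW hxE
    have hb : ((Zb adj x).card : ℝ) < t := by
      rw [hWdef] at hxW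
      unfold Wb at hxW
      rw [mem_filter] at hxW
      push Not at hxW
      exact hxW (mem_univ _)
    have f1 := not_mem_Em hxE
    have f2 : ∑ y ∈ W, Kw adj x y = ((W ∩ Zn adj x).card : ℝ) * (1 / ((Zn adj x).card : ℝ)) := by
      unfold Kw
      rw [← sum_filter, sum_const, nsmul_eq_mul]
      have : W.filter (fun y => y ∈ Zn adj x) = W ∩ Zn adj x := by
        ext y; simp
      rw [this]
    rw [f2]
    have f3 : mS (Hn adj) x W + mS (Hn adj) x (Zn adj x) ≤
        (W ∩ Zn adj x).card + mS (Hn adj) x univ := by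
      unfold mS
      have g1 : W.filter (fun u => Hn adj x u) ∪ (Zn adj x).filter (fun u => Hn adj x u) ⊆
          univ.filter (fun u => Hn adj x u) := by
        intro u hu
        rw [mem_union, mem_filter, mem_filter] at hu
        rw [mem_filter]
        rcases hu with h | h
        · exact ⟨mem_univ _, h.2⟩
        · exact ⟨mem_univ _, h.2⟩
      have g2 : W.filter (fun u => Hn adj x u) ∩ (Zn adj x).filter (fun u => Hn adj x u) ⊆
          W ∩ Zn adj x := by
        intro u hu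
        rw [mem_inter, mem_filter, mem_filter] at hu
        rw [mem_inter]
        exact ⟨hu.1.1, hu.2.1⟩
      have g3 := card_le_card g1
      have g4 := card_le_card g2
      have g5 := card_union_add_card_inter (W.filter (fun u => Hn adj x u))
        ((Zn adj x).filter (fun u => Hn adj x u))
      omega
    have f4 : (mS (Hn adj) x W : ℝ) + (mS (Hn adj) x (Zn adj x) : ℝ) ≤
        ((W ∩ Zn adj x).card : ℝ) + (mS (Hn adj) x univ : ℝ) := by exact_mod_cast f3
    have f5 : ((Zn adj x).card : ℝ) ≤ ((Zb adj x).card : ℝ) + (mS (Hn adj) x (Zn adj x) : ℝ) := by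
      exact_mod_cast zn_card adj x
    have f6 := hz2 x
    have f7 : D ≤ ((W ∩ Zn adj x).card : ℝ) := by linarith
    have f8 : (mS (Hn adj) x (Zn adj x) : ℝ) ≤ (mS (Hn adj) x univ : ℝ) := by
      exact_mod_cast mS_mono (Hn adj) x (subset_univ _)
    have f9 : ((Zn adj x).card : ℝ) ≤ 3 * r := by
      have := hdeg x
      linarith
    have f10 : 0 < ((Zn adj x).card : ℝ) := by
      have := hz x
      linarith
    rw [mul_one_div]
    calc D / (3 * r) ≤ D / ((Zn adj x).card : ℝ) := div_le_div_of_nonneg_left hDneg f10 f9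
      _ ≤ ((W ∩ Zn adj x).card : ℝ) / ((Zn adj x).card : ℝ) :=
          div_le_div_of_nonneg_right f7 f10.le
  -- mass of W
  have h2 : P = ∑ x, π x * ∑ y ∈ W, Kw adj x y := by
    calc P = ∑ y ∈ W, ∑ x, π x * Kw adj x y := by
          rw [hP]
          exact sum_congr rfl fun y _ => (hch.stat y).symm
      _ = ∑ x, ∑ y ∈ W, π x * Kw adj x y := sum_comm
      _ = ∑ x, π x * ∑ y ∈ W, Kw adj x y := sum_congr rfl fun x _ => by rw [mul_sum]
  set Gd : Finset V := univ.filter (fun x => x ∉ W ∧ x ∉ Em (Hn adj) q e W) with hGd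
  have h3 : 1 / 2 ≤ ∑ x ∈ Gd, π x := by
    have g1 : (1 : ℝ) ≤ ∑ x ∈ Gd, π x + (∑ x ∈ W, π x + ∑ x ∈ Em (Hn adj) q e W, π x) := by
      rw [← hch.psum]
      have g2 : (univ : Finset V) ⊆ Gd ∪ (W ∪ Em (Hn adj) q e W) := by
        intro x _
        rw [mem_union, mem_union, hGd, mem_filter]
        by_cases hx1 : x ∈ W
        · exact Or.inr (Or.inl hx1)
        · by_cases hx2 : x ∈ Em (Hn adj) q e W
          · exact Or.inr (Or.inr hx2)
          · exact Or.inl ⟨mem_univ _, hx1, hx2⟩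
      have g3 : ∑ x, π x ≤ ∑ x ∈ Gd ∪ (W ∪ Em (Hn adj) q e W), π x :=
        sum_le_sum_of_subset_of_nonneg g2 fun x _ _ => hp0 x
      have g4 : ∀ A B : Finset V, ∑ x ∈ A ∪ B, π x ≤ ∑ x ∈ A, π x + ∑ x ∈ B, π x := by
        intro A B
        rw [← sum_union_inter]
        have : 0 ≤ ∑ x ∈ A ∩ B, π x := sum_nonneg fun x _ => hp0 x
        linarith
      have g5 := g4 Gd (W ∪ Em (Hn adj) q e W)
      have g6 := g4 W (Em (Hn adj) q e W)
      linarith
    linarith
  have h4 : 1 / 2 * (D / (3 * r)) ≤ P := by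
    rw [h2]
    calc 1 / 2 * (D / (3 * r)) ≤ (∑ x ∈ Gd, π x) * (D / (3 * r)) :=
          mul_le_mul_of_nonneg_right h3 (by positivity)
      _ = ∑ x ∈ Gd, π x * (D / (3 * r)) := by rw [sum_mul]
      _ ≤ ∑ x ∈ Gd, π x * ∑ y ∈ W, Kw adj x y := by
          refine sum_le_sum fun x hx => ?_
          rw [hGd, mem_filter] at hx
          exact mul_le_mul_of_nonneg_left (h1 x hx.2.1 hx.2.2) (hp0 x)
      _ ≤ ∑ x, π x * ∑ y ∈ W, Kw adj x y :=
          sum_le_sum_of_subset_of_nonneg (subset_univ _) fun x _ _ =>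
            mul_nonneg (hp0 x) (sum_nonneg fun y _ => hK0 x y)
  have h5 : D ≤ 6 * r * P := by
    have e1 : 1 / 2 * (D / (3 * r)) = D / (6 * r) := by field_simp; ring
    rw [e1, div_le_iff₀ (by positivity)] at h4
    linarith
  linarith

open Classical in
/-- **Step 5**, upper bound for the number of triples -/
theorem step5_upper {adj : V → V → Prop} {r t : ℝ} (ht : 0 ≤ t)
    (hdeg : ∀ x, (mS (Hn adj) x univ : ℝ) ≤ 2 * r)
    (hz2 : ∀ x, (mS (Hn adj) x univ : ℝ) - t ≤ ((Zn adj x).card : ℝ)) :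
    ∑ x, ∑ y ∈ univ.filter (fun y => Hn adj x y), ((Np adj x ∩ Nm adj y).card : ℝ) ≤
      (Fintype.card V : ℝ) * (2 * t * (Fintype.card V : ℝ)) +
        ((Wb adj t).card : ℝ) * (2 * r * (Fintype.card V : ℝ)) := by
  set N : ℝ := (Fintype.card V : ℝ) with hN
  have hN0 : 0 ≤ N := by positivity
  have hcN : ∀ S : Finset V, (S.card : ℝ) ≤ N := by
    intro S
    rw [hN]
    exact_mod_cast card_le_univ S
  have h1 : ∀ x, ∑ y ∈ univ.filter (fun y => Hn adj x y), ((Np adj x ∩ Nm adj y).card : ℝ) ≤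
      2 * t * N + (if x ∈ Wb adj t then 2 * r * N else 0) := by
    intro x
    by_cases hx : x ∈ Wb adj t
    · rw [if_pos hx]
      have h2 : ∑ y ∈ univ.filter (fun y => Hn adj x y), ((Np adj x ∩ Nm adj y).card : ℝ) ≤
          ∑ y ∈ univ.filter (fun y => Hn adj x y), N := sum_le_sum fun y _ => hcN _
      rw [sum_const, nsmul_eq_mul] at h2
      have h3 : ((univ.filter (fun y => Hn adj x y)).card : ℝ) * N ≤ 2 * r * N :=
        mul_le_mul_of_nonneg_right (hdeg x) hN0
      have h4 : 0 ≤ 2 * t * N := by positivity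
      linarith
    · rw [if_neg hx, add_zero]
      have hb : ((Zb adj x).card : ℝ) < t := by
        unfold Wb at hx
        rw [mem_filter] at hx
        push Not at hx
        exact hx (mem_univ _)
      have h2 : ∀ y ∈ univ.filter (fun y => Hn adj x y), ((Np adj x ∩ Nm adj y).card : ℝ) ≤
          if y ∈ Zn adj x then 0 else N := by
        intro y _
        by_cases hy : y ∈ Zn adj x
        · rw [if_pos hy]
          have h3 : Np adj x ∩ Nm adj y = ∅ := by
            rw [Finset.eq_empty_iff_forall_notMem]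
            intro u hu
            rw [mem_inter, mem_Np, mem_Nm] at hu
            exact (mem_Zn.1 hy).2.2 u hu.1 hu.2
          rw [h3]
          simp
        · rw [if_neg hy]
          exact hcN _
      refine (sum_le_sum h2).trans ?_
      have h3 : ∑ y ∈ univ.filter (fun y => Hn adj x y), (if y ∈ Zn adj x then 0 else N) =
          (((univ.filter (fun y => Hn adj x y)).filter (fun y => ¬ y ∈ Zn adj x)).card : ℝ) * N := by
        have e1 : ∀ y, (if y ∈ Zn adj x then 0 else N) = if ¬ y ∈ Zn adj x then N else 0 := by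
          intro y
          by_cases hy : y ∈ Zn adj x <;> simp [hy]
        rw [sum_congr rfl (fun y _ => e1 y), ← sum_filter, sum_const, nsmul_eq_mul]
      rw [h3]
      apply mul_le_mul_of_nonneg_right _ hN0
      have h4 := card_filter_add_card_filter_not (s := univ.filter (fun y => Hn adj x y))
        (fun y => y ∈ Zn adj x)
      have h5 : ((univ.filter (fun y => Hn adj x y)).filter (fun y => y ∈ Zn adj x)).card =
          mS (Hn adj) x (Zn adj x) := by
        unfold mS
        congr 1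
        ext y
        simp only [mem_filter, mem_univ, true_and]
        exact and_comm
      have h6 : ((univ.filter (fun y => Hn adj x y)).card) = mS (Hn adj) x univ := rfl
      rw [h5, h6] at h4
      have h7 : (mS (Hn adj) x (Zn adj x) : ℝ) +
          (((univ.filter (fun y => Hn adj x y)).filter (fun y => ¬ y ∈ Zn adj x)).card : ℝ) =
          (mS (Hn adj) x univ : ℝ) := by exact_mod_cast h4
      have h8 : ((Zn adj x).card : ℝ) ≤ ((Zb adj x).card : ℝ) +
          (mS (Hn adj) x (Zn adj x) : ℝ) := by exact_mod_cast zn_card adj x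
      have h9 := hz2 x
      linarith
  refine (sum_le_sum fun x _ => h1 x).trans ?_
  rw [sum_add_distrib, sum_const, nsmul_eq_mul, card_univ, ← sum_filter, sum_const, nsmul_eq_mul]
  have h4 : univ.filter (fun x => x ∈ Wb adj t) = Wb adj t := by ext x; simp
  rw [h4]

open Classical in
/-- **Step 5**, lower bound -/
theorem step5_lower {G adj : V → V → Prop} (hG : ∀ x y, G x y → adj x y ∨ adj y x)
    {q e h c : ℝ} {k : ℕ} (hh : 0 < h) (hc : 0 < c) (hq : 0 < q)
    (hPR : PR G h c) (hD : DD (Hn adj) q e k)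
    (hh2 : 8 * h ≤ (Fintype.card V : ℝ))
    (hk : 32 * (k : ℝ) ≤ c * (Fintype.card V : ℝ))
    (he : 32 * e ≤ c * q * (Fintype.card V : ℝ)) :
    q * c ^ 2 * (Fintype.card V : ℝ) ^ 3 / 2048 ≤
      ∑ x, ∑ y ∈ univ.filter (fun y => Hn adj x y), ((Np adj x ∩ Nm adj y).card : ℝ) := by
  set N : ℝ := (Fintype.card V : ℝ) with hN
  have hN0 : 0 ≤ N := by positivity
  set lam : ℝ := c * N / 16 with hlam
  have hlam0 : 0 ≤ lam := by positivity
  -- rewrite as a sum over the middle vertex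
  have h1 : ∑ x, ∑ y ∈ univ.filter (fun y => Hn adj x y), ((Np adj x ∩ Nm adj y).card : ℝ) =
      ∑ u, ∑ x ∈ Nm adj u, (mS (Hn adj) x (Np adj u) : ℝ) := by
    have e1 : ∀ x y, ((Np adj x ∩ Nm adj y).card : ℝ) =
        ∑ u, if (adj x u ∧ adj u y) then (1 : ℝ) else 0 := by
      intro x y
      rw [← sum_filter, sum_const, nsmul_eq_mul, mul_one]
      congr 2
      ext u
      unfold Np Nm
      simp
    have e2 : ∀ u x, (mS (Hn adj) x (Np adj u) : ℝ) =
        ∑ y ∈ univ.filter (fun y => Hn adj x y), if adj u y then (1 : ℝ) else 0 := by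
      intro u x
      unfold mS
      rw [← sum_filter, sum_const, nsmul_eq_mul, mul_one]
      congr 2
      ext y
      unfold Np
      simp [and_comm]
    calc ∑ x, ∑ y ∈ univ.filter (fun y => Hn adj x y), ((Np adj x ∩ Nm adj y).card : ℝ)
        = ∑ x, ∑ y ∈ univ.filter (fun y => Hn adj x y), ∑ u,
            (if (adj x u ∧ adj u y) then (1 : ℝ) else 0) :=
          sum_congr rfl fun x _ => sum_congr rfl fun y _ => e1 x y
      _ = ∑ x, ∑ u, ∑ y ∈ univ.filter (fun y => Hn adj x y),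
            (if (adj x u ∧ adj u y) then (1 : ℝ) else 0) :=
          sum_congr rfl fun x _ => sum_comm
      _ = ∑ u, ∑ x, ∑ y ∈ univ.filter (fun y => Hn adj x y),
            (if (adj x u ∧ adj u y) then (1 : ℝ) else 0) := sum_comm
      _ = ∑ u, ∑ x ∈ Nm adj u, (mS (Hn adj) x (Np adj u) : ℝ) := by
          refine sum_congr rfl fun u _ => ?_
          have e3 : ∀ x, ∑ y ∈ univ.filter (fun y => Hn adj x y),
              (if (adj x u ∧ adj u y) then (1 : ℝ) else 0) =
              if adj x u then (mS (Hn adj) x (Np adj u) : ℝ) else 0 := by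
            intro x
            by_cases hx : adj x u
            · rw [if_pos hx, e2 u x]
              exact sum_congr rfl fun y _ => by simp [hx]
            · rw [if_neg hx]
              exact sum_eq_zero fun y _ => by simp [hx]
          rw [sum_congr rfl fun x _ => e3 x, ← sum_filter]
          rfl
  rw [h1]
  -- the vertices with few in- or out-neighbours
  set S : Finset V := univ.filter (fun u => ((Nm adj u).card : ℝ) < lam) with hS
  set S' : Finset V := univ.filter (fun u => ((Np adj u).card : ℝ) < lam) with hS'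
  have hmax : max (2 * h) (4 * lam / c) ≤ N / 4 := by
    apply max_le
    · linarith
    · rw [hlam, div_le_iff₀ hc]
      apply le_of_eq
      ring
  have hSb : (S.card : ℝ) ≤ N / 4 := by
    refine le_trans (few_in hG hh hc hPR S (lam := lam) ?_) hmax
    intro x hx
    rw [hS, mem_filter] at hx
    refine le_trans ?_ hx.2.le
    exact_mod_cast card_le_card inter_subset_left
  have hSb' : (S'.card : ℝ) ≤ N / 4 := by
    refine le_trans (few_out hG hh hc hPR S' (lam := lam) ?_) hmax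
    intro x hx
    rw [hS', mem_filter] at hx
    refine le_trans ?_ hx.2.le
    exact_mod_cast card_le_card inter_subset_left
  set Q : Finset V := univ.filter (fun u => lam ≤ ((Nm adj u).card : ℝ) ∧
    lam ≤ ((Np adj u).card : ℝ)) with hQ
  have hQb : N / 2 ≤ (Q.card : ℝ) := by
    have hcov : (univ : Finset V) ⊆ S ∪ S' ∪ Q := by
      intro u _
      rw [mem_union, mem_union, hS, hS', hQ, mem_filter, mem_filter, mem_filter]
      by_cases h1 : ((Nm adj u).card : ℝ) < lam
      · exact Or.inl (Or.inl ⟨mem_univ _, h1⟩)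
      · by_cases h2 : ((Np adj u).card : ℝ) < lam
        · exact Or.inl (Or.inr ⟨mem_univ _, h2⟩)
        · exact Or.inr ⟨mem_univ _, not_lt.1 h1, not_lt.1 h2⟩
    have h2 := (card_le_card hcov).trans ((card_union_le _ _).trans
      (Nat.add_le_add_right (card_union_le _ _) _))
    rw [card_univ] at h2
    have h3 : N ≤ S.card + S'.card + Q.card := by
      rw [hN]
      exact_mod_cast h2
    linarith
  -- lower bound for the middle vertices in Q
  have h2 : ∀ u ∈ Q, q * lam ^ 2 / 4 ≤ ∑ x ∈ Nm adj u, (mS (Hn adj) x (Np adj u) : ℝ) := by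
    intro u hu
    rw [hQ, mem_filter] at hu
    obtain ⟨-, hu1, hu2⟩ := hu
    have f1 : ∑ x ∈ Nm adj u \ Em (Hn adj) q e (Np adj u), (q * lam / 2) ≤
        ∑ x ∈ Nm adj u \ Em (Hn adj) q e (Np adj u), (mS (Hn adj) x (Np adj u) : ℝ) := by
      refine sum_le_sum fun x hx => ?_
      rw [mem_sdiff] at hx
      have g1 := not_mem_Em hx.2
      have g2 := mul_le_mul_of_nonneg_left hu2 hq.le
      have g3 : 2 * e ≤ q * lam := by
        rw [hlam]
        have : q * (c * N / 16) = c * q * N / 16 := by ring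
        rw [this]
        linarith
      linarith
    have f2 : ∑ x ∈ Nm adj u \ Em (Hn adj) q e (Np adj u), (mS (Hn adj) x (Np adj u) : ℝ) ≤
        ∑ x ∈ Nm adj u, (mS (Hn adj) x (Np adj u) : ℝ) :=
      sum_le_sum_of_subset_of_nonneg sdiff_subset fun _ _ _ => by positivity
    rw [sum_const, nsmul_eq_mul] at f1
    have f3 : lam / 2 ≤ ((Nm adj u \ Em (Hn adj) q e (Np adj u)).card : ℝ) := by
      have g1 : (Nm adj u).card ≤ (Nm adj u \ Em (Hn adj) q e (Np adj u)).card +
          (Em (Hn adj) q e (Np adj u)).card := card_le_card_sdiff_add_card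
      have g2 : ((Nm adj u).card : ℝ) ≤ ((Nm adj u \ Em (Hn adj) q e (Np adj u)).card : ℝ) +
          ((Em (Hn adj) q e (Np adj u)).card : ℝ) := by exact_mod_cast g1
      have g3 := Em_card hD (Np adj u)
      have g4 : 2 * (k : ℝ) ≤ lam := by
        rw [hlam]
        linarith
      linarith
    have f4 := mul_le_mul_of_nonneg_right f3 (by positivity : 0 ≤ q * lam / 2)
    have f5 : q * lam ^ 2 / 4 = lam / 2 * (q * lam / 2) := by ring
    rw [f5]
    linarith
  have h3 : ∑ u ∈ Q, q * lam ^ 2 / 4 ≤ ∑ u ∈ Q, ∑ x ∈ Nm adj u, (mS (Hn adj) x (Np adj u) : ℝ) :=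
    sum_le_sum h2
  have h4 : ∑ u ∈ Q, ∑ x ∈ Nm adj u, (mS (Hn adj) x (Np adj u) : ℝ) ≤
      ∑ u, ∑ x ∈ Nm adj u, (mS (Hn adj) x (Np adj u) : ℝ) :=
    sum_le_sum_of_subset_of_nonneg (subset_univ _) fun _ _ _ =>
      sum_nonneg fun _ _ => by positivity
  rw [sum_const, nsmul_eq_mul] at h3
  have h5 := mul_le_mul_of_nonneg_right hQb (by positivity : 0 ≤ q * lam ^ 2 / 4)
  have h6 : N / 2 * (q * lam ^ 2 / 4) = q * c ^ 2 * N ^ 3 / 2048 := by
    rw [hlam]
    ring
  linarith

open Classical in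
/-- **Second deterministic theorem.** -/
theorem det2 [Nonempty V] {G adj : V → V → Prop} (hG : ∀ x y, G x y → adj x y ∨ adj y x)
    (hor : ∀ x y, adj x y → ¬ adj y x) {q h c : ℝ} {k : ℕ} (hh : 0 < h) (hc : 0 < c)
    (hc1 : c ≤ 1) (hq : 0 < q) (hq1 : q ≤ 1) (hPR : PR G h c)
    (hD : DD (Hn adj) q (c ^ 7 / 2 ^ 53 * (q * (Fintype.card V : ℝ))) k)
    (hdeg1 : ∀ x, 3 / 4 * (q * (Fintype.card V : ℝ)) ≤ (mS (Hn adj) x univ : ℝ))
    (hdeg2 : ∀ x, (mS (Hn adj) x univ : ℝ) ≤ 2 * (q * (Fintype.card V : ℝ)))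
    (hht : 2 * h ≤ c ^ 2 / 2 ^ 16 * (q * (Fintype.card V : ℝ)))
    (hk : 8 * (k : ℝ) ≤ c ^ 7 / 2 ^ 53 * (q ^ 2 * (Fintype.card V : ℝ))) :
    ∃ x, ((Zn adj x).card : ℝ) <
      (mS (Hn adj) x univ : ℝ) - c ^ 2 / 2 ^ 16 * (q * (Fintype.card V : ℝ)) := by
  by_contra hcon
  push Not at hcon
  set N : ℝ := (Fintype.card V : ℝ) with hN
  have hN0 : 0 < N := by
    rw [hN]
    exact_mod_cast Fintype.card_pos
  set r : ℝ := q * N with hr
  have hr0 : 0 < r := by positivity
  set τ : ℝ := c ^ 2 / 2 ^ 16 with hτ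
  have hτ0 : 0 < τ := by positivity
  have hc2 : c ^ 2 ≤ 1 := pow_le_one₀ hc.le hc1
  have hτ1 : τ ≤ 1 / 2 ^ 16 := by
    rw [hτ]
    exact div_le_div_of_nonneg_right hc2 (by positivity)
  set η : ℝ := c ^ 7 / 2 ^ 53 with hη
  have hη0 : 0 < η := by positivity
  have hc7 : c ^ 7 ≤ c ^ 2 := pow_le_pow_of_le_one hc.le hc1 (by norm_num)
  have hc7' : c ^ 7 ≤ c := by
    calc c ^ 7 ≤ c ^ 1 := pow_le_pow_of_le_one hc.le hc1 (by norm_num)
      _ = c := pow_one c
  have hη1 : η ≤ c ^ 2 / 2 ^ 53 := div_le_div_of_nonneg_right hc7 (by positivity)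
  have hη1' : η ≤ c / 2 ^ 53 := div_le_div_of_nonneg_right hc7' (by positivity)
  have hη2 : η ≤ 1 / 2 ^ 53 := hη1.trans (div_le_div_of_nonneg_right hc2 (by positivity))
  -- sizes of Z
  have hz : ∀ x, r / 2 ≤ ((Zn adj x).card : ℝ) := by
    intro x
    have h1 := hcon x
    have h2 := hdeg1 x
    have h3 : τ * r ≤ 1 / 2 ^ 16 * r := mul_le_mul_of_nonneg_right hτ1 hr0.le
    have h4 : (1 : ℝ) / 2 ^ 16 * r ≤ 1 / 4 * r := by
      apply mul_le_mul_of_nonneg_right _ hr0.le
      norm_num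
    linarith
  obtain ⟨π, hch⟩ := Sul.exists_stat (Kw adj) (Kw_nonneg adj) (fun x => Kw_row x (by
    have := hz x
    linarith))
  have hdegS : ∀ x S, (mS (Hn adj) x S : ℝ) ≤ 2 * r := by
    intro x S
    refine le_trans ?_ (hdeg2 x)
    exact_mod_cast mS_mono (Hn adj) x (subset_univ S)
  have hkr : 8 * (k : ℝ) ≤ η * (q * r) := by
    have : q ^ 2 * N = q * r := by rw [hr]; ring
    rw [← this]
    exact hk
  have hk1 : 8 * (k : ℝ) / q ≤ η * r := by
    rw [div_le_iff₀ hq]
    linarith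
  have hk2 : 8 * (k : ℝ) ≤ η * r := by
    have : η * (q * r) ≤ η * (1 * r) :=
      mul_le_mul_of_nonneg_left (mul_le_mul_of_nonneg_right hq1 hr0.le) hη0.le
    linarith
  -- step 2
  have hE := step2 hor (e := η * r) (r := r) hr0 rfl hq (by positivity) hD hdegS hz π hch
  have hE2 : ∑ x, π x * ∑ y, Kw adj x y * ((Np adj y ∩ Nm adj x).card : ℝ) ≤ 3 * (η * r) := by
    refine hE.trans ?_
    have : 4 * (k : ℝ) / q = (8 * (k : ℝ) / q) / 2 := by ring
    rw [this]
    linarith
  -- mass of the bad set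
  set W := Wb adj (τ * r) with hW
  set P : ℝ := ∑ x ∈ W, π x with hP
  have hP0 : 0 ≤ P := sum_nonneg fun x _ => hch.pnn x
  have hPb : P * (c * τ ^ 2 * r / 12) ≤ 3 * (η * r) := by
    refine le_trans ?_ hE2
    rw [hP, sum_mul]
    calc ∑ x ∈ W, π x * (c * τ ^ 2 * r / 12)
        ≤ ∑ x ∈ W, π x * ∑ y, Kw adj x y * ((Np adj y ∩ Nm adj x).card : ℝ) := by
          refine sum_le_sum fun x hx => mul_le_mul_of_nonneg_left ?_ (hch.pnn x)
          rw [hW] at hx
          unfold Wb at hx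
          rw [mem_filter] at hx
          exact step3 hG hc hPR hτ0 (hτ1.trans (by norm_num)) hr0 hht x (hdegS x _) hx.2
      _ ≤ ∑ x, π x * ∑ y, Kw adj x y * ((Np adj y ∩ Nm adj x).card : ℝ) :=
          sum_le_sum_of_subset_of_nonneg (subset_univ _) fun x _ _ =>
            mul_nonneg (hch.pnn x) (sum_nonneg fun y _ =>
              mul_nonneg (Kw_nonneg adj x y) (by positivity))
  have hPb2 : P ≤ 36 * c ^ 2 / 2 ^ 21 := by
    have e1 : P * (c * τ ^ 2 / 12) ≤ 3 * η := by
      have : P * (c * τ ^ 2 * r / 12) = P * (c * τ ^ 2 / 12) * r := by ring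
      rw [this] at hPb
      have h2 : 3 * (η * r) = 3 * η * r := by ring
      rw [h2] at hPb
      exact le_of_mul_le_mul_right hPb hr0
    have e2 : 3 * η = 36 * c ^ 2 / 2 ^ 21 * (c * τ ^ 2 / 12) := by
      rw [hη, hτ]
      ring
    rw [e2] at e1
    exact le_of_mul_le_mul_right e1 (by positivity)
  have hPb3 : P ≤ 1 / 4 := by
    refine hPb2.trans ?_
    have : 36 * c ^ 2 / 2 ^ 21 ≤ 36 * 1 / 2 ^ 21 := by
      apply div_le_div_of_nonneg_right _ (by positivity)
      linarith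
    refine this.trans (by norm_num)
  have hτr : τ * r ≤ r := by
    have : τ ≤ 1 := hτ1.trans (by norm_num)
    nlinarith
  have hηr : η * r ≤ r := by
    have : η ≤ 1 := hη2.trans (by norm_num)
    nlinarith
  have h4 := step4 (q := q) (e := η * r) (r := r) (t := τ * r) hr0 hD hdeg2 hτr hz hcon π hch
    (hk2.trans hηr) hPb3
  -- step 5
  have h5 := step5_upper (adj := adj) (r := r) (t := τ * r) (by positivity) hdeg2 hcon
  have h6 := step5_lower (adj := adj) (q := q) (e := η * r) (k := k) hG hh hc hq hPR hD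
    (by
      have e1 : τ * r ≤ 1 / 2 ^ 16 * (1 * N) := by
        apply mul_le_mul hτ1 _ hr0.le (by positivity)
        rw [hr]
        exact mul_le_mul_of_nonneg_right hq1 hN0.le
      have e2 : (1 : ℝ) / 2 ^ 16 * (1 * N) ≤ N / 4 := by
        have : (1 : ℝ) / 2 ^ 16 ≤ 1 / 4 := by norm_num
        nlinarith
      linarith) (by
      have e1 : η * r ≤ c / 2 ^ 53 * (1 * N) := by
        apply mul_le_mul hη1' _ hr0.le (by positivity)
        rw [hr]
        exact mul_le_mul_of_nonneg_right hq1 hN0.le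
      have e2 : c / 2 ^ 53 * (1 * N) * 4 ≤ c * N := by
        have : c * N * (4 / 2 ^ 53) ≤ c * N * 1 := by
          apply mul_le_mul_of_nonneg_left _ (by positivity)
          norm_num
        linarith
      linarith) (by
      have e1 : η * r ≤ c / 2 ^ 53 * r := mul_le_mul_of_nonneg_right hη1' hr0.le
      have e2 : c / 2 ^ 53 * r * 32 ≤ c * r := by
        have : c * r * (32 / 2 ^ 53) ≤ c * r * 1 := by
          apply mul_le_mul_of_nonneg_left _ (by positivity)
          norm_num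
        linarith
      have e3 : c * q * (Fintype.card V : ℝ) = c * r := by rw [hr, hN]; ring
      rw [e3]
      linarith)
  rw [← hN] at h5 h6
  have h7 : q * c ^ 2 * N ^ 3 / 2048 ≤ N * (2 * (τ * r) * N) + (W.card : ℝ) * (2 * r * N) :=
    h6.trans h5
  -- divide by N^2
  have h8 : c ^ 2 * r / 2048 ≤ 2 * (τ * r) + 2 * (q * (W.card : ℝ)) := by
    have e1 : q * c ^ 2 * N ^ 3 / 2048 = (c ^ 2 * r / 2048) * N ^ 2 := by rw [hr]; ring
    have e2 : N * (2 * (τ * r) * N) + (W.card : ℝ) * (2 * r * N) =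
        (2 * (τ * r) + 2 * (q * (W.card : ℝ))) * N ^ 2 := by rw [hr]; ring
    rw [e1, e2] at h7
    exact le_of_mul_le_mul_right h7 (by positivity)
  have h9 : c ^ 2 / 2048 ≤ 6 * τ + 2 * η + 12 * P := by
    have e1 : c ^ 2 * r / 2048 ≤ (6 * τ + 2 * η + 12 * P) * r := by
      have : (6 * τ + 2 * η + 12 * P) * r = 2 * (τ * r) + 2 * (6 * r * P + η * r + 2 * (τ * r)) := by
        ring
      rw [this]
      linarith
    have e2 : c ^ 2 * r / 2048 = c ^ 2 / 2048 * r := by ring
    rw [e2] at e1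
    exact le_of_mul_le_mul_right e1 hr0
  have hcc : 0 < c ^ 2 := by positivity
  have h10 : 6 * τ + 2 * η + 12 * P ≤
      6 * (c ^ 2 / 2 ^ 16) + 2 * (c ^ 2 / 2 ^ 53) + 12 * (36 * c ^ 2 / 2 ^ 21) := by
    rw [hτ]
    linarith
  have h11 : 6 * (c ^ 2 / 2 ^ 16) + 2 * (c ^ 2 / 2 ^ 53) + 12 * (36 * c ^ 2 / 2 ^ 21) <
      c ^ 2 / 2048 := by
    have : 6 * (c ^ 2 / 2 ^ 16) + 2 * (c ^ 2 / 2 ^ 53) + 12 * (36 * c ^ 2 / 2 ^ 21) =
        c ^ 2 * (6 / 2 ^ 16 + 2 / 2 ^ 53 + 12 * 36 / 2 ^ 21) := by ring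
    rw [this]
    have h12 : c ^ 2 / 2048 = c ^ 2 * (1 / 2048) := by ring
    rw [h12]
    apply mul_lt_mul_of_pos_left _ hcc
    norm_num
  linarith

end Pool.Agent.Sully15
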