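import Pool.Agent.Sully15.Prob
import Pool.Agent.Sully15.Walk2

/-!
MP_109285_co, probability part for the complement of `G(n,p)`.
-/

namespace Pool.Agent.Sully15

open Finset Pool.Agent.GRig

section bits

variable {ι : Type*} [Fintype ι] [DecidableEq ι]

/-- number of false bits in `F` -/
def cntF (F : Finset ι) (ω : ι → Bool) : ℕ := (F.filter (fun e => ω e = false)).card

theorem momentF (p s : ℝ) (F : Finset ι) :
    ∑ ω : ι → Bool, wt p ω * s ^ (cntF F ω) = (p + (1 - p) * s) ^ F.card := by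
  have h := Finset.prod_univ_sum (fun _ : ι => (Finset.univ : Finset Bool))
    (fun i b => bw p b * (if i ∈ F then (if b = false then s else 1) else 1))
  rw [Fintype.piFinset_univ] at h
  have h2 : ∀ i : ι, (∑ b : Bool, bw p b * (if i ∈ F then (if b = false then s else 1) else 1)) =
      if i ∈ F then (p + (1 - p) * s) else 1 := by
    intro i
    by_cases hi : i ∈ F
    · simp [hi, bw]
    · simp [hi, bw]
  rw [Finset.prod_congr rfl (fun i _ => h2 i)] at h
  have h3 : (∏ i : ι, if i ∈ F then (p + (1 - p) * s) else 1) =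
      (p + (1 - p) * s) ^ F.card := by
    rw [Finset.prod_ite_mem]
    simp
  rw [← h3, h]
  refine Finset.sum_congr rfl fun ω _ => ?_
  rw [Finset.prod_mul_distrib]
  congr 1
  unfold cntF
  rw [Finset.prod_ite_mem, Finset.univ_inter, Finset.prod_ite, Finset.prod_const,
    Finset.prod_const_one, mul_one]

theorem tailF {p θ : ℝ} (h0 : 0 ≤ p) (h1 : p ≤ 1) (hθ : |θ| ≤ 1) (F : Finset ι) (u : ℝ) :
    pr p (fun ω : ι → Bool => u ≤ θ * (cntF F ω : ℝ)) ≤
      Real.exp (-u + (1 - p) * (θ + θ ^ 2) * F.card) := by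
  have e1 : pr p (fun ω : ι → Bool => u ≤ θ * (cntF F ω : ℝ)) ≤
      Real.exp (-u) * ∑ ω : ι → Bool, wt p ω * (Real.exp θ) ^ (cntF F ω) := by
    unfold pr
    rw [Finset.mul_sum]
    refine Finset.sum_le_sum fun ω _ => ?_
    have hw := wt_nonneg h0 h1 ω
    have e2 : Real.exp (-u) * (wt p ω * (Real.exp θ) ^ (cntF F ω)) =
        wt p ω * Real.exp (θ * (cntF F ω : ℝ) - u) := by
      rw [← Real.exp_nat_mul, sub_eq_add_neg, Real.exp_add]
      ring_nf
    rw [e2]
    split_ifs with hu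
    · have : 1 ≤ Real.exp (θ * (cntF F ω : ℝ) - u) := Real.one_le_exp (by linarith)
      nlinarith
    · positivity
  rw [momentF] at e1
  refine e1.trans ?_
  rw [Real.exp_add]
  apply mul_le_mul_of_nonneg_left _ (Real.exp_pos _).le
  have e3 : p + (1 - p) * Real.exp θ ≤ Real.exp ((1 - p) * (θ + θ ^ 2)) := by
    have e4 := Real.abs_exp_sub_one_sub_id_le hθ
    have e5 := (abs_le.1 e4).2
    have e6 := Real.add_one_le_exp ((1 - p) * (θ + θ ^ 2))
    nlinarith
  have e7 : 0 ≤ p + (1 - p) * Real.exp θ := by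
    have := Real.exp_pos θ
    have h2 : 0 ≤ 1 - p := by linarith
    positivity
  have e8 := pow_le_pow_left₀ e7 e3 F.card
  rw [← Real.exp_nat_mul] at e8
  rw [mul_comm ((1 - p) * (θ + θ ^ 2))]
  exact e8

end bits

/-- non-adjacency of a simple graph -/
def Hg {V : Type} (G : SimpleGraph V) (x u : V) : Prop := u ≠ x ∧ ¬ G.Adj x u

theorem Hn_eq {V : Type} {G : SimpleGraph V} {adj : V → V → Prop}
    (h : ∀ x y, (adj x y ∨ adj y x) ↔ G.Adj x y) : Hn adj = Hg G := by
  funext x u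
  apply propext
  unfold Hn Hg
  rw [← h x u, not_or]

variable {n : ℕ}

theorem gr_adj {ω : Sym2 (Fin n) → Bool} {x y : Fin n} (hxy : x ≠ y) :
    (gr ω).Adj x y ↔ ω s(x, y) = true :=
  ⟨fun h => h.2, fun h => ⟨hxy, h⟩⟩

open Classical in
theorem cntF_prod (ω : Sym2 (Fin n) → Bool) (X Y : Finset (Fin n)) (hd : Disjoint X Y) :
    cntF ((Y ×ˢ X).image (fun q => s(q.1, q.2))) ω = ∑ y ∈ Y, mS (Hg (gr ω)) y X := by
  have hne : ∀ y ∈ Y, ∀ x ∈ X, y ≠ x := by
    intro y hy x hx h
    subst h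
    exact (Finset.disjoint_left.1 hd hx) hy
  unfold cntF
  rw [Finset.filter_image, Finset.card_image_of_injOn]
  · rw [Finset.card_filter, Finset.sum_product]
    refine Finset.sum_congr rfl fun y hy => ?_
    rw [← Finset.card_filter]
    unfold mS
    congr 1
    ext x
    simp only [Finset.mem_filter]
    constructor
    · rintro ⟨hx, h⟩
      refine ⟨hx, (hne y hy x hx).symm, ?_⟩
      rw [gr_adj (hne y hy x hx), h]
      simp
    · rintro ⟨hx, h⟩
      refine ⟨hx, ?_⟩
      have h2 := h.2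
      rw [gr_adj (hne y hy x hx)] at h2
      simpa using h2
  · intro a ha b hb hab
    simp only [Finset.coe_filter, Set.mem_ofPred_eq, Finset.mem_product] at ha hb
    simp only [Sym2.eq_iff] at hab
    rcases hab with h | h
    · exact Prod.ext h.1 h.2
    · exact absurd h.1 (hne _ ha.1.1 _ hb.1.2)

open Classical in
theorem cntF_star (ω : Sym2 (Fin n) → Bool) (v : Fin n) :
    cntF ((Finset.univ.erase v).image (fun x => s(v, x))) ω = mS (Hg (gr ω)) v Finset.univ := by
  unfold cntF mS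
  rw [Finset.filter_image, Finset.card_image_of_injOn]
  · congr 1
    ext x
    simp only [Finset.mem_filter, Finset.mem_erase, Finset.mem_univ, and_true, true_and]
    constructor
    · rintro ⟨hx, h⟩
      refine ⟨hx, ?_⟩
      rw [gr_adj hx.symm, h]
      simp
    · rintro ⟨h1, h2⟩
      refine ⟨h1, ?_⟩
      rw [gr_adj h1.symm] at h2
      simpa using h2
  · intro a _ b _ hab
    simp only [Sym2.eq_iff] at hab
    rcases hab with h | h
    · exact h.2
    · rw [h.2, ← h.1]

open Classical in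
theorem card_star (v : Fin n) :
    (((Finset.univ.erase v).image (fun x => s(v, x))).card : ℝ) = n - 1 := by
  rw [Finset.card_image_of_injOn, Finset.card_erase_of_mem (Finset.mem_univ _),
    Finset.card_univ, Fintype.card_fin]
  · have : 1 ≤ n := by
      have := v.2
      omega
    push_cast [Nat.cast_sub this]
    ring
  · intro a _ b _ hab
    simp only [Sym2.eq_iff] at hab
    rcases hab with h | h
    · exact h.2
    · rw [h.2, ← h.1]

open Classical in
theorem mS_sdiff (H : Fin n → Fin n → Prop) (x : Fin n) (S K : Finset (Fin n)) :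
    mS H x S ≤ mS H x (S \ K) + K.card := by
  unfold mS
  have h : S.filter (fun u => H x u) ⊆ (S \ K).filter (fun u => H x u) ∪ K := by
    intro u hu
    rw [Finset.mem_filter] at hu
    rw [Finset.mem_union, Finset.mem_filter, Finset.mem_sdiff]
    by_cases hK : u ∈ K
    · exact Or.inr hK
    · exact Or.inl ⟨⟨hu.1, hK⟩, hu.2⟩
  exact (Finset.card_le_card h).trans (Finset.card_union_le _ _)

open Classical in
/-- one pair of sets, from above -/
theorem badD_up {p η : ℝ} (h0 : 0 ≤ p) (h1 : p ≤ 1) (hη0 : 0 < η) (hη1 : η ≤ 1) {k : ℕ}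
    (hk : 2 * (k : ℝ) ≤ η * ((1 - p) * n)) (S K : Finset (Fin n)) (hK : K.card = k) :
    pr p (fun ω : Sym2 (Fin n) → Bool =>
        ∀ x ∈ K, (1 - p) * S.card + η * ((1 - p) * n) < (mS (Hg (gr ω)) x S : ℝ)) ≤
      Real.exp (-(η ^ 2 * k * ((1 - p) * n) / 16)) := by
  set S' := S \ K with hS'
  have hd : Disjoint S' K := Finset.sdiff_disjoint
  have hq : 0 ≤ 1 - p := by linarith
  have hS'le : (S'.card : ℝ) ≤ S.card := by
    exact_mod_cast Finset.card_le_card Finset.sdiff_subset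
  have hS'n : (S'.card : ℝ) ≤ n := by
    have : S'.card ≤ n := by
      refine (Finset.card_le_univ _).trans ?_
      rw [Fintype.card_fin]
    exact_mod_cast this
  have h2 : pr p (fun ω : Sym2 (Fin n) → Bool =>
        ∀ x ∈ K, (1 - p) * S.card + η * ((1 - p) * n) < (mS (Hg (gr ω)) x S : ℝ)) ≤
      pr p (fun ω : Sym2 (Fin n) → Bool =>
        η / 4 * (k * ((1 - p) * S'.card + η * ((1 - p) * n) / 2)) ≤
          η / 4 * (cntF ((K ×ˢ S').image (fun q => s(q.1, q.2))) ω : ℝ)) := by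
    refine pr_mono h0 h1 fun ω hω => ?_
    rw [cntF_prod ω S' K hd]
    push_cast
    apply mul_le_mul_of_nonneg_left _ (by positivity)
    have h3 : ∑ x ∈ K, ((1 - p) * S'.card + η * ((1 - p) * n) / 2) ≤
        ∑ x ∈ K, (mS (Hg (gr ω)) x S' : ℝ) := by
      refine Finset.sum_le_sum fun x hx => ?_
      have h4 := hω x hx
      have h5 : (mS (Hg (gr ω)) x S : ℝ) ≤ (mS (Hg (gr ω)) x S' : ℝ) + k := by
        rw [← hK]
        exact_mod_cast mS_sdiff (Hg (gr ω)) x S K
      have h6 := mul_le_mul_of_nonneg_left hS'le hq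
      linarith
    rw [Finset.sum_const, nsmul_eq_mul, hK] at h3
    exact h3
  refine h2.trans ((tailF h0 h1 (by rw [abs_le]; constructor <;> linarith) _ _).trans ?_)
  rw [card_prod_image S' K hd]
  apply Real.exp_le_exp.2
  push_cast
  rw [hK]
  have h5 : (1 - p) * (η / 4) ^ 2 * (k * (S'.card : ℝ)) ≤ (1 - p) * (η / 4) ^ 2 * (k * n) := by
    apply mul_le_mul_of_nonneg_left _ (by positivity)
    exact mul_le_mul_of_nonneg_left hS'n (by positivity)
  nlinarith

open Classical in
/-- one pair of sets, from below -/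
theorem badD_low {p η : ℝ} (h0 : 0 ≤ p) (h1 : p ≤ 1) (hη0 : 0 < η) (hη1 : η ≤ 1) {k : ℕ}
    (hk : 2 * (k : ℝ) ≤ η * ((1 - p) * n)) (S K : Finset (Fin n)) (hK : K.card = k) :
    pr p (fun ω : Sym2 (Fin n) → Bool =>
        ∀ x ∈ K, (mS (Hg (gr ω)) x S : ℝ) < (1 - p) * S.card - η * ((1 - p) * n)) ≤
      Real.exp (-(η ^ 2 * k * ((1 - p) * n) / 16)) := by
  set S' := S \ K with hS'
  have hd : Disjoint S' K := Finset.sdiff_disjoint
  have hq : 0 ≤ 1 - p := by linarith
  have hS'le : (S.card : ℝ) ≤ S'.card + k := by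
    have : S.card ≤ S'.card + K.card := Finset.card_le_card_sdiff_add_card
    rw [hK] at this
    exact_mod_cast this
  have hS'n : (S'.card : ℝ) ≤ n := by
    have : S'.card ≤ n := by
      refine (Finset.card_le_univ _).trans ?_
      rw [Fintype.card_fin]
    exact_mod_cast this
  have h2 : pr p (fun ω : Sym2 (Fin n) → Bool =>
        ∀ x ∈ K, (mS (Hg (gr ω)) x S : ℝ) < (1 - p) * S.card - η * ((1 - p) * n)) ≤
      pr p (fun ω : Sym2 (Fin n) → Bool =>
        -(η / 4) * (k * ((1 - p) * S'.card - η * ((1 - p) * n) / 2)) ≤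
          -(η / 4) * (cntF ((K ×ˢ S').image (fun q => s(q.1, q.2))) ω : ℝ)) := by
    refine pr_mono h0 h1 fun ω hω => ?_
    rw [cntF_prod ω S' K hd]
    push_cast
    have h3 : ∑ x ∈ K, (mS (Hg (gr ω)) x S' : ℝ) ≤
        ∑ x ∈ K, ((1 - p) * S'.card - η * ((1 - p) * n) / 2) := by
      refine Finset.sum_le_sum fun x hx => ?_
      have h4 := hω x hx
      have h5 : (mS (Hg (gr ω)) x S' : ℝ) ≤ (mS (Hg (gr ω)) x S : ℝ) := by
        exact_mod_cast mS_mono (Hg (gr ω)) x Finset.sdiff_subset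
      have h6 := mul_le_mul_of_nonneg_left hS'le hq
      have h7 : (1 - p) * (k : ℝ) ≤ k := by
        have : 0 ≤ (k : ℝ) := by positivity
        nlinarith
      linarith
    rw [Finset.sum_const, nsmul_eq_mul, hK] at h3
    have h4 := mul_le_mul_of_nonneg_left h3 (by positivity : 0 ≤ η / 4)
    linarith
  refine h2.trans ((tailF h0 h1 (by rw [abs_le]; constructor <;> linarith) _ _).trans ?_)
  rw [card_prod_image S' K hd]
  apply Real.exp_le_exp.2
  push_cast
  rw [hK]
  have h5 : (1 - p) * (η / 4) ^ 2 * (k * (S'.card : ℝ)) ≤ (1 - p) * (η / 4) ^ 2 * (k * n) := by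
    apply mul_le_mul_of_nonneg_left _ (by positivity)
    exact mul_le_mul_of_nonneg_left hS'n (by positivity)
  nlinarith

open Classical in
/-- the pseudo-randomness of the complement fails with small probability -/
theorem pr_notDD {p η : ℝ} (h0 : 0 ≤ p) (h1 : p ≤ 1) (hη0 : 0 < η) (hη1 : η ≤ 1) (k : ℕ)
    (hk : 2 * (k : ℝ) ≤ η * ((1 - p) * n)) :
    pr p (fun ω : Sym2 (Fin n) → Bool =>
        ¬ DD (Hg (gr ω)) (1 - p) (η * ((1 - p) * n)) k) ≤
      2 * (4 ^ n * Real.exp (-(η ^ 2 * k * ((1 - p) * n) / 16))) := by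
  have e1 : pr p (fun ω : Sym2 (Fin n) → Bool =>
        ¬ DD (Hg (gr ω)) (1 - p) (η * ((1 - p) * n)) k) ≤
      pr p (fun ω : Sym2 (Fin n) → Bool =>
        (∃ j ∈ (Finset.univ : Finset (Finset (Fin n) × Finset (Fin n))).filter
          (fun j => j.2.card = k),
          ∀ x ∈ j.2, (1 - p) * j.1.card + η * ((1 - p) * n) < (mS (Hg (gr ω)) x j.1 : ℝ)) ∨
        (∃ j ∈ (Finset.univ : Finset (Finset (Fin n) × Finset (Fin n))).filter
          (fun j => j.2.card = k),
          ∀ x ∈ j.2, (mS (Hg (gr ω)) x j.1 : ℝ) < (1 - p) * j.1.card - η * ((1 - p) * n))) := by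
    refine pr_mono h0 h1 fun ω hω => ?_
    unfold DD at hω
    rw [not_and_or] at hω
    rcases hω with h | h
    · left
      push Not at h
      obtain ⟨S, K, hK, hx⟩ := h
      exact ⟨(S, K), by rw [Finset.mem_filter]; exact ⟨Finset.mem_univ _, hK⟩, hx⟩
    · right
      push Not at h
      obtain ⟨S, K, hK, hx⟩ := h
      exact ⟨(S, K), by rw [Finset.mem_filter]; exact ⟨Finset.mem_univ _, hK⟩, hx⟩
  refine e1.trans ((pr_or_le h0 h1 _ _).trans ?_)
  have hcard : (((Finset.univ : Finset (Finset (Fin n) × Finset (Fin n))).filter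
      (fun j => j.2.card = k)).card : ℝ) ≤ 4 ^ n := by
    have : ((Finset.univ : Finset (Finset (Fin n) × Finset (Fin n))).filter
        (fun j => j.2.card = k)).card ≤ 4 ^ n := by
      refine (Finset.card_le_univ _).trans ?_
      rw [Fintype.card_prod, Fintype.card_finset, Fintype.card_fin, ← mul_pow]
      norm_num
    exact_mod_cast this
  have e2 : ∀ A : Finset (Fin n) × Finset (Fin n) → (Sym2 (Fin n) → Bool) → Prop,
      (∀ j, j.2.card = k → pr p (A j) ≤ Real.exp (-(η ^ 2 * k * ((1 - p) * n) / 16))) →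
      pr p (fun ω => ∃ j ∈ (Finset.univ : Finset (Finset (Fin n) × Finset (Fin n))).filter
          (fun j => j.2.card = k), A j ω) ≤
        4 ^ n * Real.exp (-(η ^ 2 * k * ((1 - p) * n) / 16)) := by
    intro A hA
    refine (pr_exists_le h0 h1 _ _).trans ?_
    refine (Finset.sum_le_sum (g := fun _ => Real.exp (-(η ^ 2 * k * ((1 - p) * n) / 16)))
      fun j hj => ?_).trans ?_
    · rw [Finset.mem_filter] at hj
      exact hA j hj.2
    · rw [Finset.sum_const, nsmul_eq_mul]
      exact mul_le_mul_of_nonneg_right hcard (Real.exp_pos _).le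
  have e3 := e2 (fun j ω => ∀ x ∈ j.2, (1 - p) * j.1.card + η * ((1 - p) * n) <
    (mS (Hg (gr ω)) x j.1 : ℝ)) (fun j hj => badD_up h0 h1 hη0 hη1 hk j.1 j.2 hj)
  have e4 := e2 (fun j ω => ∀ x ∈ j.2, (mS (Hg (gr ω)) x j.1 : ℝ) <
    (1 - p) * j.1.card - η * ((1 - p) * n)) (fun j hj => badD_low h0 h1 hη0 hη1 hk j.1 j.2 hj)
  linarith

open Classical in
/-- degrees of the complement -/
theorem pr_degs {p : ℝ} (h0 : 0 ≤ p) (h1 : p ≤ 1) :
    pr p (fun ω : Sym2 (Fin n) → Bool =>
        ¬ ∀ x, 3 / 4 * ((1 - p) * n) ≤ (mS (Hg (gr ω)) x Finset.univ : ℝ) ∧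
          (mS (Hg (gr ω)) x Finset.univ : ℝ) ≤ 2 * ((1 - p) * n)) ≤
      n * (2 * Real.exp (1 - (1 - p) * n / 64)) := by
  have hq : 0 ≤ 1 - p := by linarith
  have e1 : pr p (fun ω : Sym2 (Fin n) → Bool =>
        ¬ ∀ x, 3 / 4 * ((1 - p) * n) ≤ (mS (Hg (gr ω)) x Finset.univ : ℝ) ∧
          (mS (Hg (gr ω)) x Finset.univ : ℝ) ≤ 2 * ((1 - p) * n)) ≤
      pr p (fun ω : Sym2 (Fin n) → Bool => ∃ v ∈ (Finset.univ : Finset (Fin n)),
        ((-1 / 8) * (3 / 4 * ((1 - p) * n)) ≤
          (-1 / 8) * (cntF ((Finset.univ.erase v).image (fun x => s(v, x))) ω : ℝ)) ∨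
        (1 / 2 * (2 * ((1 - p) * n)) ≤
          1 / 2 * (cntF ((Finset.univ.erase v).image (fun x => s(v, x))) ω : ℝ))) := by
    refine pr_mono h0 h1 fun ω hω => ?_
    rw [not_forall] at hω
    obtain ⟨v, hv⟩ := hω
    refine ⟨v, Finset.mem_univ _, ?_⟩
    rw [cntF_star]
    rw [not_and_or, not_le, not_le] at hv
    rcases hv with h | h
    · left
      linarith
    · right
      linarith
  refine e1.trans ((pr_exists_le h0 h1 _ _).trans ?_)
  have e2 : ∀ v ∈ (Finset.univ : Finset (Fin n)), pr p (fun ω : Sym2 (Fin n) → Bool =>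
        ((-1 / 8) * (3 / 4 * ((1 - p) * n)) ≤
          (-1 / 8) * (cntF ((Finset.univ.erase v).image (fun x => s(v, x))) ω : ℝ)) ∨
        (1 / 2 * (2 * ((1 - p) * n)) ≤
          1 / 2 * (cntF ((Finset.univ.erase v).image (fun x => s(v, x))) ω : ℝ))) ≤
      2 * Real.exp (1 - (1 - p) * n / 64) := by
    intro v _
    refine (pr_or_le h0 h1 _ _).trans ?_
    have hn : 0 ≤ (n : ℝ) := by positivity
    have hqn : 0 ≤ (1 - p) * n := by positivity
    have f1 := tailF h0 h1 (θ := -1 / 8) (by rw [abs_le]; constructor <;> norm_num)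
      ((Finset.univ.erase v).image (fun x => s(v, x))) ((-1 / 8) * (3 / 4 * ((1 - p) * n)))
    have f2 := tailF h0 h1 (θ := 1 / 2) (by rw [abs_le]; constructor <;> norm_num)
      ((Finset.univ.erase v).image (fun x => s(v, x))) (1 / 2 * (2 * ((1 - p) * n)))
    rw [card_star] at f1 f2
    have f3 : Real.exp (-((-1 / 8) * (3 / 4 * ((1 - p) * n))) +
        (1 - p) * (-1 / 8 + (-1 / 8) ^ 2) * ((n : ℝ) - 1)) ≤
        Real.exp (1 - (1 - p) * n / 64) := by
      apply Real.exp_le_exp.2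
      nlinarith
    have f4 : Real.exp (-(1 / 2 * (2 * ((1 - p) * n))) +
        (1 - p) * (1 / 2 + (1 / 2) ^ 2) * ((n : ℝ) - 1)) ≤
        Real.exp (1 - (1 - p) * n / 64) := by
      apply Real.exp_le_exp.2
      nlinarith
    linarith
  refine (Finset.sum_le_sum e2).trans ?_
  rw [Finset.sum_const, nsmul_eq_mul, Finset.card_univ, Fintype.card_fin]

end Pool.Agent.Sully15
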