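import Pool.Agent.Sully15.Det
import Pool.Agent.Sul.Stat

/-!
MP_109285_co, second deterministic part: if the complement of `G` is pseudo-random, every
orientation of `G` has a vertex `v` with fewer unreached vertices than non-neighbours.
The proof uses the stationary distribution of the walk `x → uniform y ∈ Z(x)`.
-/

namespace Pool.Agent.Sully15

open Finset

variable {V : Type} [Fintype V]

/-- non-adjacency -/
def Hn (adj : V → V → Prop) (x u : V) : Prop := u ≠ x ∧ ¬ adj x u ∧ ¬ adj u x

open Classical in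
/-- number of `H`-neighbours of `x` in `S` -/
noncomputable def mS (H : V → V → Prop) (x : V) (S : Finset V) : ℕ :=
  (S.filter (fun u => H x u)).card

open Classical in
/-- vertices not reached from `x` in at most two steps -/
noncomputable def Zn (adj : V → V → Prop) (x : V) : Finset V :=
  univ.filter (fun z => z ≠ x ∧ ¬ adj x z ∧ ∀ u, adj x u → ¬ adj u z)

/-- pseudo-randomness of the complement: for every set `S` fewer than `k` vertices have a wrong
number of `H`-neighbours in `S` -/
def DD (H : V → V → Prop) (q e : ℝ) (k : ℕ) : Prop :=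
  (∀ S K : Finset V, K.card = k → ∃ x ∈ K, (mS H x S : ℝ) ≤ q * S.card + e) ∧
  (∀ S K : Finset V, K.card = k → ∃ x ∈ K, q * S.card - e ≤ (mS H x S : ℝ))

open Classical in
/-- exceptional vertices from above -/
noncomputable def Ep (H : V → V → Prop) (q e : ℝ) (S : Finset V) : Finset V :=
  univ.filter (fun x => q * S.card + e < (mS H x S : ℝ))

open Classical in
/-- exceptional vertices from below -/
noncomputable def Em (H : V → V → Prop) (q e : ℝ) (S : Finset V) : Finset V :=
  univ.filter (fun x => (mS H x S : ℝ) < q * S.card - e)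

theorem Ep_card {H : V → V → Prop} {q e : ℝ} {k : ℕ} (h : DD H q e k) (S : Finset V) :
    ((Ep H q e S).card : ℝ) ≤ k := by
  by_contra hcon
  rw [not_le] at hcon
  have h1 : k ≤ (Ep H q e S).card := by exact_mod_cast hcon.le
  obtain ⟨K, hK1, hK2⟩ := exists_subset_card_eq h1
  obtain ⟨x, hx, hx2⟩ := h.1 S K hK2
  have h3 := hK1 hx
  unfold Ep at h3
  rw [mem_filter] at h3
  linarith [h3.2]

theorem Em_card {H : V → V → Prop} {q e : ℝ} {k : ℕ} (h : DD H q e k) (S : Finset V) :
    ((Em H q e S).card : ℝ) ≤ k := by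
  by_contra hcon
  rw [not_le] at hcon
  have h1 : k ≤ (Em H q e S).card := by exact_mod_cast hcon.le
  obtain ⟨K, hK1, hK2⟩ := exists_subset_card_eq h1
  obtain ⟨x, hx, hx2⟩ := h.2 S K hK2
  have h3 := hK1 hx
  unfold Em at h3
  rw [mem_filter] at h3
  linarith [h3.2]

open Classical in
theorem not_mem_Ep {H : V → V → Prop} {q e : ℝ} {S : Finset V} {x : V} (h : x ∉ Ep H q e S) :
    (mS H x S : ℝ) ≤ q * S.card + e := by
  unfold Ep at h
  rw [mem_filter] at h
  push Not at h
  exact h (mem_univ _)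

open Classical in
theorem not_mem_Em {H : V → V → Prop} {q e : ℝ} {S : Finset V} {x : V} (h : x ∉ Em H q e S) :
    q * S.card - e ≤ (mS H x S : ℝ) := by
  unfold Em at h
  rw [mem_filter] at h
  push Not at h
  exact h (mem_univ _)

theorem mem_Np {adj : V → V → Prop} {x u : V} : u ∈ Np adj x ↔ adj x u := by
  unfold Np; simp

theorem mem_Nm {adj : V → V → Prop} {x u : V} : u ∈ Nm adj x ↔ adj u x := by
  unfold Nm; simp

theorem mem_Zn {adj : V → V → Prop} {x z : V} :
    z ∈ Zn adj x ↔ z ≠ x ∧ ¬ adj x z ∧ ∀ u, adj x u → ¬ adj u z := by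
  unfold Zn; simp

open Classical in
/-- the change of the out-neighbourhood along the walk -/
theorem step1 {adj : V → V → Prop} (hor : ∀ x y, adj x y → ¬ adj y x) {x y : V}
    (hy : y ∈ Zn adj x) :
    (Np adj y ∩ Nm adj x).card + (Np adj x).card + mS (Hn adj) x (Np adj y) ≤
      (Np adj y).card + mS (Hn adj) y (Np adj x) := by
  rw [mem_Zn] at hy
  obtain ⟨hy1, hy2, hy3⟩ := hy
  have h1 : Np adj x ⊆ (Np adj x ∩ Np adj y) ∪ (Np adj x).filter (fun u => Hn adj y u) := by
    intro u hu
    rw [mem_Np] at hu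
    rw [mem_union, mem_inter, mem_filter, mem_Np, mem_Np]
    by_cases h : adj y u
    · exact Or.inl ⟨hu, h⟩
    · right
      refine ⟨hu, ?_, h, hy3 u hu⟩
      rintro rfl
      exact hy2 hu
  have h2 : (Np adj x ∩ Np adj y) ∪ ((Np adj y ∩ Nm adj x) ∪
      (Np adj y).filter (fun u => Hn adj x u)) ⊆ Np adj y := by
    intro u hu
    rw [mem_union, mem_union, mem_inter, mem_inter, mem_filter] at hu
    rcases hu with h | h | h
    · exact h.2
    · exact h.1
    · exact h.1
  have h3 : Disjoint (Np adj y ∩ Nm adj x) ((Np adj y).filter (fun u => Hn adj x u)) := by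
    rw [disjoint_left]
    intro u hu hu2
    rw [mem_inter, mem_Nm] at hu
    rw [mem_filter] at hu2
    exact hu2.2.2.2 hu.2
  have h4 : Disjoint (Np adj x ∩ Np adj y) ((Np adj y ∩ Nm adj x) ∪
      (Np adj y).filter (fun u => Hn adj x u)) := by
    rw [disjoint_left]
    intro u hu hu2
    rw [mem_inter, mem_Np] at hu
    rw [mem_union, mem_inter, mem_filter, mem_Nm] at hu2
    rcases hu2 with h | h
    · exact hor _ _ hu.1 h.2
    · exact h.2.2.1 hu.1
  have h5 := card_le_card h1
  have h6 := card_le_card h2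
  rw [card_union_of_disjoint h4, card_union_of_disjoint h3] at h6
  have h7 := h5.trans (card_union_le _ _)
  unfold mS
  omega

open Classical in
/-- many arcs inside a set -/
theorem arcs_ge {G adj : V → V → Prop} (hG : ∀ x y, G x y → adj x y ∨ adj y x) {h c : ℝ}
    (hc : 0 < c) (hPR : PR G h c) (S : Finset V) (hS : 2 * h ≤ (S.card : ℝ)) :
    c / 4 * (S.card : ℝ) ^ 2 ≤ ∑ y ∈ S, ((Np adj y ∩ S).card : ℝ) := by
  set Y := S.filter (fun y => ((Nb G y ∩ S).card : ℝ) < c * (S.card : ℝ)) with hY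
  have hYh : (Y.card : ℝ) ≤ S.card / 2 := by
    by_contra hc2
    rw [not_le] at hc2
    obtain ⟨y, hy, hy2⟩ := hPR S Y hS (by linarith)
    rw [hY, mem_filter] at hy
    linarith [hy.2]
  have h3 : ((S.card : ℝ) - Y.card) * (c * S.card) ≤ ∑ y ∈ S, ((Nb G y ∩ S).card : ℝ) := by
    have h4 : ∑ y ∈ S \ Y, (c * (S.card : ℝ)) ≤ ∑ y ∈ S \ Y, ((Nb G y ∩ S).card : ℝ) := by
      refine sum_le_sum fun y hy => ?_
      rw [mem_sdiff, hY, mem_filter] at hy
      by_contra hc3
      rw [not_le] at hc3
      exact hy.2 ⟨hy.1, hc3⟩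
    have h5 : ∑ y ∈ S \ Y, ((Nb G y ∩ S).card : ℝ) ≤ ∑ y ∈ S, ((Nb G y ∩ S).card : ℝ) :=
      sum_le_sum_of_subset_of_nonneg sdiff_subset (fun _ _ _ => by positivity)
    rw [sum_const, nsmul_eq_mul, cast_card_sdiff (filter_subset _ _)] at h4
    exact h4.trans h5
  have h6 : ∑ y ∈ S, ((Nb G y ∩ S).card : ℝ) ≤
      ∑ y ∈ S, ((Np adj y ∩ S).card : ℝ) + ∑ y ∈ S, ((Nm adj y ∩ S).card : ℝ) := by
    rw [← sum_add_distrib]
    refine sum_le_sum fun y _ => ?_
    have h7 : Nb G y ∩ S ⊆ (Np adj y ∩ S) ∪ (Nm adj y ∩ S) := by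
      intro x hx
      rw [mem_inter] at hx
      unfold Nb at hx
      rw [mem_filter] at hx
      rw [mem_union, mem_inter, mem_inter, mem_Np, mem_Nm]
      rcases hG y x hx.1.2 with h | h
      · exact Or.inl ⟨h, hx.2⟩
      · exact Or.inr ⟨h, hx.2⟩
    exact_mod_cast (card_le_card h7).trans (card_union_le _ _)
  have h8 : ∑ y ∈ S, ((Np adj y ∩ S).card : ℝ) = ∑ y ∈ S, ((Nm adj y ∩ S).card : ℝ) := by
    have e1 : ∀ y, ((Np adj y ∩ S).card : ℝ) = ∑ x ∈ S, if adj y x then (1 : ℝ) else 0 := by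
      intro y
      rw [← sum_filter, sum_const, nsmul_eq_mul, mul_one]
      congr 2
      ext x
      unfold Np
      simp [and_comm]
    have e2 : ∀ y, ((Nm adj y ∩ S).card : ℝ) = ∑ x ∈ S, if adj x y then (1 : ℝ) else 0 := by
      intro y
      rw [← sum_filter, sum_const, nsmul_eq_mul, mul_one]
      congr 2
      ext x
      unfold Nm
      simp [and_comm]
    rw [sum_congr rfl (fun y _ => e1 y), sum_congr rfl (fun y _ => e2 y), sum_comm]
  have h10 : ((S.card : ℝ) / 2) * (c * S.card) ≤ ((S.card : ℝ) - Y.card) * (c * S.card) := by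
    apply mul_le_mul_of_nonneg_right _ (by positivity)
    linarith
  have h11 : c / 4 * (S.card : ℝ) ^ 2 = ((S.card : ℝ) / 2) * (c * S.card) / 2 := by ring
  rw [h11]
  linarith

open Classical in
/-- the transition matrix -/
noncomputable def Kw (adj : V → V → Prop) (x y : V) : ℝ :=
  if y ∈ Zn adj x then 1 / ((Zn adj x).card : ℝ) else 0

open Classical in
theorem Kw_row {adj : V → V → Prop} (x : V) (h : 0 < ((Zn adj x).card : ℝ)) :
    ∑ y, Kw adj x y = 1 := by
  unfold Kw
  rw [← sum_filter, sum_const, nsmul_eq_mul]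
  have : univ.filter (fun y => y ∈ Zn adj x) = Zn adj x := by
    ext y; simp
  rw [this]
  field_simp

open Classical in
theorem Kw_nonneg (adj : V → V → Prop) (x y : V) : 0 ≤ Kw adj x y := by
  unfold Kw
  split_ifs
  · positivity
  · exact le_rfl

open Classical in
theorem Kw_le {adj : V → V → Prop} {r : ℝ} (hr : 0 < r) (x y : V)
    (h : r / 2 ≤ ((Zn adj x).card : ℝ)) : Kw adj x y ≤ 2 / r := by
  unfold Kw
  split_ifs
  · rw [div_le_div_iff₀ (by linarith) hr]
    linarith
  · positivity

open Classical in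
/-- **Step 2.** -/
theorem step2 {adj : V → V → Prop} (hor : ∀ x y, adj x y → ¬ adj y x) {q e r : ℝ} {k : ℕ}
    (hr : 0 < r) (hqN : q * (Fintype.card V : ℝ) = r) (hq : 0 < q) (he : 0 ≤ e)
    (hD : DD (Hn adj) q e k) (hdeg : ∀ x S, (mS (Hn adj) x S : ℝ) ≤ 2 * r)
    (hz : ∀ x, r / 2 ≤ ((Zn adj x).card : ℝ)) (π : V → ℝ)
    (hch : Sul.Chain (Kw adj) π) :
    ∑ x, π x * ∑ y, Kw adj x y * ((Np adj y ∩ Nm adj x).card : ℝ) ≤
      2 * e + 4 * k + 4 * k / q := by
  have hK0 := hch.knn
  have hp0 := hch.pnn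
  have hKle : ∀ x y, Kw adj x y ≤ 2 / r := fun x y => Kw_le hr x y (hz x)
  have hple : ∀ y, π y ≤ 2 / r := by
    intro y
    rw [← hch.stat y]
    calc ∑ v, π v * Kw adj v y ≤ ∑ v, π v * (2 / r) :=
          sum_le_sum fun v _ => mul_le_mul_of_nonneg_left (hKle v y) (hp0 v)
      _ = 2 / r := by rw [← sum_mul, hch.psum, one_mul]
  -- pointwise
  have h1 : ∀ x y, Kw adj x y * ((Np adj y ∩ Nm adj x).card : ℝ) ≤
      Kw adj x y * ((Np adj y).card : ℝ) - Kw adj x y * ((Np adj x).card : ℝ) +
        Kw adj x y * (mS (Hn adj) y (Np adj x) : ℝ) -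
        Kw adj x y * (mS (Hn adj) x (Np adj y) : ℝ) := by
    intro x y
    by_cases hy : y ∈ Zn adj x
    · have h2 := step1 hor hy
      have h3 : ((Np adj y ∩ Nm adj x).card : ℝ) + ((Np adj x).card : ℝ) +
          (mS (Hn adj) x (Np adj y) : ℝ) ≤
          ((Np adj y).card : ℝ) + (mS (Hn adj) y (Np adj x) : ℝ) := by exact_mod_cast h2
      have h4 : ((Np adj y ∩ Nm adj x).card : ℝ) ≤ ((Np adj y).card : ℝ) -
          ((Np adj x).card : ℝ) + (mS (Hn adj) y (Np adj x) : ℝ) -
          (mS (Hn adj) x (Np adj y) : ℝ) := by linarith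
      have h5 := mul_le_mul_of_nonneg_left h4 (hK0 x y)
      linarith
    · have : Kw adj x y = 0 := by unfold Kw; rw [if_neg hy]
      rw [this]
      simp
  set a : ℝ := ∑ x, π x * ((Np adj x).card : ℝ) with ha
  have e1 : ∑ x, π x * ∑ y, Kw adj x y * ((Np adj y).card : ℝ) = a := by
    calc ∑ x, π x * ∑ y, Kw adj x y * ((Np adj y).card : ℝ)
        = ∑ x, ∑ y, π x * Kw adj x y * ((Np adj y).card : ℝ) := by
          refine sum_congr rfl fun x _ => ?_
          rw [mul_sum]
          exact sum_congr rfl fun y _ => by ring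
      _ = ∑ y, ∑ x, π x * Kw adj x y * ((Np adj y).card : ℝ) := sum_comm
      _ = ∑ y, π y * ((Np adj y).card : ℝ) := by
          refine sum_congr rfl fun y _ => ?_
          rw [← sum_mul, hch.stat y]
      _ = a := rfl
  have e2 : ∑ x, π x * ∑ y, Kw adj x y * ((Np adj x).card : ℝ) = a := by
    rw [ha]
    refine sum_congr rfl fun x _ => ?_
    rw [← sum_mul, hch.row x, one_mul]
  -- first error term
  have e3 : ∑ x, π x * ∑ y, Kw adj x y * (mS (Hn adj) y (Np adj x) : ℝ) ≤
      q * a + e + 4 * k := by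
    have f1 : ∀ x, ∑ y, Kw adj x y * (mS (Hn adj) y (Np adj x) : ℝ) ≤
        q * ((Np adj x).card : ℝ) + e + 4 * k := by
      intro x
      have f2 : ∀ y, Kw adj x y * (mS (Hn adj) y (Np adj x) : ℝ) ≤
          Kw adj x y * (q * ((Np adj x).card : ℝ) + e) +
            (if y ∈ Ep (Hn adj) q e (Np adj x) then (4 : ℝ) else 0) := by
        intro y
        by_cases hy : y ∈ Ep (Hn adj) q e (Np adj x)
        · rw [if_pos hy]
          have g1 : Kw adj x y * (mS (Hn adj) y (Np adj x) : ℝ) ≤ 2 / r * (2 * r) :=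
            mul_le_mul (hKle x y) (hdeg y _) (by positivity) (by positivity)
          have g2 : 2 / r * (2 * r) = 4 := by field_simp; norm_num
          have g3 : 0 ≤ Kw adj x y * (q * ((Np adj x).card : ℝ) + e) :=
            mul_nonneg (hK0 x y) (by positivity)
          linarith
        · rw [if_neg hy, add_zero]
          exact mul_le_mul_of_nonneg_left (not_mem_Ep hy) (hK0 x y)
      refine (sum_le_sum fun y _ => f2 y).trans ?_
      rw [sum_add_distrib, ← sum_mul, hch.row x, one_mul, ← sum_filter, sum_const, nsmul_eq_mul]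
      have g4 : univ.filter (fun y => y ∈ Ep (Hn adj) q e (Np adj x)) =
          Ep (Hn adj) q e (Np adj x) := by ext y; simp
      rw [g4]
      have g5 := Ep_card hD (Np adj x)
      linarith
    calc ∑ x, π x * ∑ y, Kw adj x y * (mS (Hn adj) y (Np adj x) : ℝ)
        ≤ ∑ x, π x * (q * ((Np adj x).card : ℝ) + e + 4 * k) :=
          sum_le_sum fun x _ => mul_le_mul_of_nonneg_left (f1 x) (hp0 x)
      _ = ∑ x, (q * (π x * ((Np adj x).card : ℝ)) + π x * (e + 4 * k)) :=
          sum_congr rfl fun x _ => by ring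
      _ = q * a + (e + 4 * k) := by
          rw [sum_add_distrib, ← mul_sum, ← sum_mul, hch.psum, one_mul]
      _ = q * a + e + 4 * k := by ring
  -- second error term
  have e4 : q * a - e - 4 * k / q ≤
      ∑ x, π x * ∑ y, Kw adj x y * (mS (Hn adj) x (Np adj y) : ℝ) := by
    have f0 : ∑ x, π x * ∑ y, Kw adj x y * (mS (Hn adj) x (Np adj y) : ℝ) =
        ∑ y, ∑ x, π x * Kw adj x y * (mS (Hn adj) x (Np adj y) : ℝ) := by
      rw [sum_comm]
      refine sum_congr rfl fun x _ => ?_
      rw [mul_sum]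
      exact sum_congr rfl fun y _ => by ring
    rw [f0]
    have f1 : ∀ y, π y * (q * ((Np adj y).card : ℝ) - e) - 4 * k / r ≤
        ∑ x, π x * Kw adj x y * (mS (Hn adj) x (Np adj y) : ℝ) := by
      intro y
      have f2 : ∀ x, π x * Kw adj x y * (q * ((Np adj y).card : ℝ) - e) -
          (if x ∈ Em (Hn adj) q e (Np adj y) then (4 / r : ℝ) else 0) ≤
          π x * Kw adj x y * (mS (Hn adj) x (Np adj y) : ℝ) := by
        intro x
        have hpK : 0 ≤ π x * Kw adj x y := mul_nonneg (hp0 x) (hK0 x y)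
        by_cases hx : x ∈ Em (Hn adj) q e (Np adj y)
        · rw [if_pos hx]
          have g1 : π x * Kw adj x y ≤ 2 / r * (2 / r) :=
            mul_le_mul (hple x) (hKle x y) (hK0 x y) (by positivity)
          have g2 : q * ((Np adj y).card : ℝ) - e ≤ r := by
            have : ((Np adj y).card : ℝ) ≤ (Fintype.card V : ℝ) := by
              exact_mod_cast card_le_univ _
            have := mul_le_mul_of_nonneg_left this hq.le
            linarith
          have g3 : π x * Kw adj x y * (q * ((Np adj y).card : ℝ) - e) ≤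
              2 / r * (2 / r) * r :=
            (mul_le_mul_of_nonneg_left g2 hpK).trans (mul_le_mul_of_nonneg_right g1 hr.le)
          have g4 : 2 / r * (2 / r) * r = 4 / r := by field_simp; norm_num
          have g5 : 0 ≤ π x * Kw adj x y * (mS (Hn adj) x (Np adj y) : ℝ) :=
            mul_nonneg hpK (by positivity)
          linarith
        · rw [if_neg hx, sub_zero]
          exact mul_le_mul_of_nonneg_left (not_mem_Em hx) hpK
      refine le_trans ?_ (sum_le_sum fun x _ => f2 x)
      rw [sum_sub_distrib, ← sum_mul, hch.stat y, ← sum_filter, sum_const, nsmul_eq_mul]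
      have g4 : univ.filter (fun x => x ∈ Em (Hn adj) q e (Np adj y)) =
          Em (Hn adj) q e (Np adj y) := by ext x; simp
      rw [g4]
      have g5 := mul_le_mul_of_nonneg_right (Em_card hD (Np adj y))
        (by positivity : (0 : ℝ) ≤ 4 / r)
      have g6 : (k : ℝ) * (4 / r) = 4 * k / r := by ring
      linarith
    refine le_trans ?_ (sum_le_sum fun y _ => f1 y)
    have f3 : ∑ y, (π y * (q * ((Np adj y).card : ℝ) - e) - 4 * k / r) =
        q * a - e - (Fintype.card V : ℝ) * (4 * k / r) := by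
      rw [sum_sub_distrib, sum_const, nsmul_eq_mul, card_univ]
      congr 1
      calc ∑ y, π y * (q * ((Np adj y).card : ℝ) - e)
          = ∑ y, (q * (π y * ((Np adj y).card : ℝ)) - π y * e) :=
            sum_congr rfl fun y _ => by ring
        _ = q * a - e := by rw [sum_sub_distrib, ← mul_sum, ← sum_mul, hch.psum, one_mul]
    rw [f3]
    apply le_of_eq
    have : (Fintype.card V : ℝ) * (4 * k / r) = 4 * k / q := by
      rw [← hqN]
      have hN : (Fintype.card V : ℝ) ≠ 0 := by
        intro h0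
        rw [h0, mul_zero] at hqN
        linarith
      field_simp
    rw [this]
  -- conclusion
  calc ∑ x, π x * ∑ y, Kw adj x y * ((Np adj y ∩ Nm adj x).card : ℝ)
      ≤ ∑ x, π x * ∑ y, (Kw adj x y * ((Np adj y).card : ℝ) -
          Kw adj x y * ((Np adj x).card : ℝ) +
          Kw adj x y * (mS (Hn adj) y (Np adj x) : ℝ) -
          Kw adj x y * (mS (Hn adj) x (Np adj y) : ℝ)) :=
        sum_le_sum fun x _ => mul_le_mul_of_nonneg_left (sum_le_sum fun y _ => h1 x y) (hp0 x)
    _ = ∑ x, π x * ∑ y, Kw adj x y * ((Np adj y).card : ℝ) -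
        ∑ x, π x * ∑ y, Kw adj x y * ((Np adj x).card : ℝ) +
        ∑ x, π x * ∑ y, Kw adj x y * (mS (Hn adj) y (Np adj x) : ℝ) -
        ∑ x, π x * ∑ y, Kw adj x y * (mS (Hn adj) x (Np adj y) : ℝ) := by
        rw [← sum_sub_distrib, ← sum_add_distrib, ← sum_sub_distrib]
        refine sum_congr rfl fun x _ => ?_
        rw [sum_sub_distrib, sum_add_distrib, sum_sub_distrib]
        ring
    _ ≤ 2 * e + 4 * k + 4 * k / q := by
        rw [e1, e2]
        linarith

end Pool.Agent.Sully15
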